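import Mathlib

set_option autoImplicit false

/-!
# Integral extensions and a determinant argument
-/

namespace Pool.Agent.MPf2967f.Uni

open Polynomial

/-- If all `e j` are roots of `e ^ 3 - e + x` and their product is a unit constant, then `x` is
integral. -/
lemma int_lemma {V Λ : Type*} [CommRing V] [CommRing Λ] [Algebra V Λ] {k : ℕ} [NeZero k]
    (x : Λ) (e : ZMod k → Λ) (he : ∀ j, e j ^ 3 - e j + x = 0) (t : V) (ht : IsUnit t)
    (hprod : ∏ j, e j = algebraMap V Λ t) : IsIntegral V x := by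
  classical
  set L := Localization.Away x with hL
  set s : L := IsLocalization.Away.invSelf x with hs
  set X' : L := algebraMap Λ L x with hX'
  have hsX : s * X' = 1 := by
    rw [mul_comm]
    exact IsLocalization.Away.mul_invSelf x
  have hu : ∀ j, ∃ u : L, algebraMap Λ L (e j) * u = 1 := by
    intro j
    have h1 : IsUnit (∏ j, e j) := by rw [hprod]; exact ht.map _
    have h2 : IsUnit (e j) := isUnit_of_dvd_unit (Finset.dvd_prod_of_mem _ (Finset.mem_univ j)) h1
    exact (h2.map (algebraMap Λ L)).exists_right_inv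
  choose u hu using hu
  have hu3 : ∀ j, X' * u j ^ 3 = u j ^ 2 - 1 := by
    intro j
    have h1 := congrArg (algebraMap Λ L) (he j)
    rw [map_add, map_sub, map_pow, map_zero] at h1
    have h2 := hu j
    linear_combination (u j ^ 3) * h1 - (1 + algebraMap Λ L (e j) * u j +
      (algebraMap Λ L (e j) * u j) ^ 2 - u j ^ 2) * h2
  have hint : ∀ j, IsIntegral (Algebra.adjoin V {s}) (u j) := by
    intro j
    set s' : Algebra.adjoin V {s} := ⟨s, Algebra.subset_adjoin rfl⟩ with hs'
    refine ⟨X ^ 3 - C s' * X ^ 2 + C s', ?_, ?_⟩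
    · have e1 : (X ^ 3 - C s' * X ^ 2 + C s' : Polynomial (Algebra.adjoin V {s})) =
          X ^ 3 + (-(C s' * X ^ 2) + C s') := by ring
      rw [e1]
      rcases subsingleton_or_nontrivial (Algebra.adjoin V {s}) with hsub | hnon
      · exact monic_of_subsingleton _
      apply monic_X_pow_add
      refine (degree_add_le _ _).trans_lt (max_lt ?_ ?_)
      · rw [degree_neg]
        exact (degree_C_mul_X_pow_le 2 s').trans_lt (by norm_num)
      · exact degree_C_le.trans_lt (by norm_num)
    · have e2 : algebraMap (Algebra.adjoin V {s}) L s' = s := rfl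
      rw [← aeval_def]
      simp only [map_add, map_sub, map_mul, map_pow, aeval_X, aeval_C, e2]
      have h3 := hu3 j
      linear_combination s * h3 - u j ^ 3 * hsX
  have hXX : X' = s ^ (k - 1) * (algebraMap V L t) ^ 3 * ∏ j, (u j ^ 2 - 1) := by
    have h1 : ∏ j, (u j ^ 2 - 1) = X' ^ k * (∏ j, u j) ^ 3 := by
      rw [← Finset.prod_pow]
      simp_rw [← hu3]
      rw [Finset.prod_mul_distrib]
      simp
    have h2 : (algebraMap V L t) * ∏ j, u j = 1 := by
      rw [IsScalarTower.algebraMap_apply V Λ L, ← hprod, map_prod, ← Finset.prod_mul_distrib]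
      simp_rw [hu]
      simp
    have h3 : X' ^ k = X' ^ (k - 1) * X' := by
      rw [← pow_succ, Nat.sub_add_cancel (Nat.pos_of_ne_zero (NeZero.ne k))]
    have h4 : s ^ (k - 1) * X' ^ (k - 1) = 1 := by rw [← mul_pow, hsX, one_pow]
    rw [h1, h3]
    have h5 : (algebraMap V L t) ^ 3 * (∏ j, u j) ^ 3 = 1 := by rw [← mul_pow, h2, one_pow]
    linear_combination (-X') * h4 - X' * s ^ (k - 1) * X' ^ (k - 1) * h5
  have hXint : IsIntegral (Algebra.adjoin V {s}) X' := by
    rw [hXX]
    refine IsIntegral.mul (IsIntegral.mul (IsIntegral.pow ?_ _) (IsIntegral.pow ?_ _)) ?_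
    · exact isIntegral_algebraMap (x := (⟨s, Algebra.subset_adjoin rfl⟩ : Algebra.adjoin V {s}))
    · rw [IsScalarTower.algebraMap_apply V (Algebra.adjoin V {s}) L]
      exact isIntegral_algebraMap
    · exact IsIntegral.prod _ (fun j _ => ((hint j).pow 2).sub isIntegral_one)
  have hXV : IsIntegral V X' := isIntegral_of_isIntegral_adjoin_of_mul_eq_one X' s hsX hXint
  obtain ⟨p, hp, hp0⟩ := hXV
  rw [← aeval_def, hX', aeval_algebraMap_apply, IsLocalization.map_eq_zero_iff
    (Submonoid.powers x) L] at hp0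
  obtain ⟨⟨m, n, rfl⟩, hm⟩ := hp0
  refine ⟨X ^ n * p, (monic_X_pow n).mul hp, ?_⟩
  rw [← aeval_def, map_mul, map_pow, aeval_X]
  exact hm

section fingen

variable {V A : Type*} [CommRing V] [CommRing A] [Algebra V A]

/-- Hypotheses on the algebra generated by all the quantities. -/
structure Gen (ϖ : V) (k : ℕ) [NeZero k] (U : Subalgebra V A) (e : ZMod k → A) (y : A) (t : V) :
    Prop where
  he : ∀ j, e j ∈ U
  hy : y ∈ U
  hU : ∀ u ∈ U, ∃ p ∈ Algebra.adjoin V (Set.range e ∪ {y}), ∃ u' ∈ U, u = p + ϖ • u'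
  hrel : ∀ j, ∃ g ∈ U, e j ^ 3 - e j + y = ϖ • g
  ht : IsUnit t
  hprod : ∏ j, e j = algebraMap V A t

variable {ϖ : V} {k : ℕ} [NeZero k] {U : Subalgebra V A} {e : ZMod k → A} {y : A} {t : V}

lemma mem_span_smul {u : U} (h : u ∈ Ideal.span ({algebraMap V U ϖ} : Set U)) :
    ∃ u' ∈ U, (u : A) = ϖ • u' := by
  rw [Ideal.mem_span_singleton] at h
  obtain ⟨v, hv⟩ := h
  refine ⟨v, v.2, ?_⟩
  rw [hv]
  simp [Algebra.smul_def]

lemma Gen.exists_monic (G : Gen ϖ k U e y t) :
    ∃ f : V[X], f.Monic ∧ ∃ g ∈ U, aeval y f = ϖ • g := by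
  set I : Ideal U := Ideal.span ({algebraMap V U ϖ} : Set U) with hI
  set y' : U := ⟨y, G.hy⟩ with hy'
  set e' : ZMod k → U := fun j => ⟨e j, G.he j⟩ with he'
  have h1 : IsIntegral V (algebraMap U (U ⧸ I) y') := by
    refine int_lemma (k := k) (algebraMap U (U ⧸ I) y') (fun j => algebraMap U (U ⧸ I) (e' j)) ?_
      t G.ht ?_
    · intro j
      obtain ⟨g, hg, hg'⟩ := G.hrel j
      rw [← map_pow, ← map_sub, ← map_add]
      rw [Ideal.Quotient.algebraMap_eq, Ideal.Quotient.eq_zero_iff_mem, hI,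
        Ideal.mem_span_singleton]
      refine ⟨⟨g, hg⟩, ?_⟩
      apply Subtype.ext
      simp only [he', hy']
      push_cast
      rw [hg', Algebra.smul_def]
    · rw [← map_prod]
      have h2 : ∏ j, e' j = algebraMap V U t := by
        apply Subtype.ext
        rw [← Subalgebra.coe_val, map_prod]
        exact G.hprod
      rw [h2]
      rfl
  obtain ⟨f, hf, hf0⟩ := h1
  refine ⟨f, hf, ?_⟩
  rw [← aeval_def, aeval_algebraMap_apply, Ideal.Quotient.algebraMap_eq,
    Ideal.Quotient.eq_zero_iff_mem] at hf0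
  obtain ⟨u', hu', hu⟩ := mem_span_smul hf0
  refine ⟨u', hu', ?_⟩
  rw [← hu]
  exact (Subalgebra.aeval_coe U y' f).symm ▸ rfl

lemma Gen.exists_span (G : Gen ϖ k U e y t) : ∃ (r : ℕ) (E : Fin r → A), (∀ i, E i ∈ U) ∧
    ∀ u ∈ U, ∃ c : Fin r → V[X], ∃ u' ∈ U, u = ∑ i, aeval y (c i) * E i + ϖ • u' := by
  set I : Ideal U := Ideal.span ({algebraMap V U ϖ} : Set U) with hI
  set y' : U := ⟨y, G.hy⟩ with hy'
  set e' : ZMod k → U := fun j => ⟨e j, G.he j⟩ with he'
  let alg : Algebra V[X] (U ⧸ I) :=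
    (aeval (R := V) (algebraMap U (U ⧸ I) y')).toRingHom.toAlgebra
  have hmap : ∀ p : V[X], algebraMap V[X] (U ⧸ I) p = aeval (algebraMap U (U ⧸ I) y') p :=
    fun p => rfl
  have : IsScalarTower V V[X] (U ⧸ I) := IsScalarTower.of_algebraMap_eq (fun v => by
    rw [hmap, Polynomial.algebraMap_eq, aeval_C])
  set s : Set (U ⧸ I) := Set.range (fun j => algebraMap U (U ⧸ I) (e' j)) with hs
  have hfg : (Subalgebra.toSubmodule (Algebra.adjoin V[X] s)).FG := by
    refine fg_adjoin_of_finite (Set.finite_range _) ?_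
    rintro _ ⟨j, rfl⟩
    refine ⟨X ^ 3 + (-X + C X), monic_X_pow_add ?_, ?_⟩
    · refine (degree_add_le _ _).trans_lt (max_lt ?_ ?_)
      · rw [degree_neg]
        exact degree_X_le.trans_lt (by norm_num)
      · exact degree_C_le.trans_lt (by norm_num)
    · obtain ⟨g, hg, hg'⟩ := G.hrel j
      rw [← aeval_def]
      simp only [map_add, map_neg, map_pow, aeval_X, aeval_C, hmap]
      rw [← map_pow, ← map_neg, ← map_add, ← map_add, Ideal.Quotient.algebraMap_eq,
        Ideal.Quotient.eq_zero_iff_mem, hI, Ideal.mem_span_singleton]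
      refine ⟨⟨g, hg⟩, ?_⟩
      apply Subtype.ext
      simp only [he', hy']
      push_cast
      have : e j ^ 3 + (-e j + y) = ϖ • g := by rw [← hg']; ring
      rw [this, Algebra.smul_def]
  have htop : Algebra.adjoin V[X] s = ⊤ := by
    rw [eq_top_iff]
    rintro q -
    obtain ⟨u, rfl⟩ := Ideal.Quotient.mk_surjective q
    obtain ⟨p, hp, u', hu', hu⟩ := G.hU u u.2
    have hpU : Algebra.adjoin V (Set.range e ∪ {y}) ≤ U := by
      rw [Algebra.adjoin_le_iff]
      rintro _ (⟨j, rfl⟩ | rfl)
      · exact G.he j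
      · exact G.hy
    have h1 : Ideal.Quotient.mk I u = Ideal.Quotient.mk I ⟨p, hpU hp⟩ := by
      rw [Ideal.Quotient.mk_eq_mk_iff_sub_mem, hI, Ideal.mem_span_singleton]
      refine ⟨⟨u', hu'⟩, ?_⟩
      apply Subtype.ext
      push_cast
      rw [hu, add_sub_cancel_left, Algebra.smul_def]
    rw [h1]
    have key : ∀ p (hp : p ∈ Algebra.adjoin V (Set.range e ∪ {y})),
        Ideal.Quotient.mk I ⟨p, hpU hp⟩ ∈ Algebra.adjoin V[X] s := by
      intro p hp
      induction hp using Algebra.adjoin_induction with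
      | mem x hx =>
        rcases hx with ⟨j, rfl⟩ | hx
        · exact Algebra.subset_adjoin ⟨j, rfl⟩
        · have hx' : x = y := hx
          subst hx'
          have : Ideal.Quotient.mk I y' = algebraMap V[X] (U ⧸ I) X := by
            rw [hmap, aeval_X]; rfl
          have h2 := (Algebra.adjoin V[X] s).algebraMap_mem (X : V[X])
          rw [← this] at h2
          exact h2
      | algebraMap v =>
        have : Ideal.Quotient.mk I (algebraMap V U v) = algebraMap V[X] (U ⧸ I) (C v) := by
          rw [hmap, aeval_C]; rfl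
        have h2 := (Algebra.adjoin V[X] s).algebraMap_mem (C v : V[X])
        rw [← this] at h2
        exact h2
      | add a b ha hb iha ihb => exact (Algebra.adjoin V[X] s).add_mem iha ihb
      | mul a b ha hb iha ihb => exact (Algebra.adjoin V[X] s).mul_mem iha ihb
    exact key p hp
  rw [htop, Algebra.top_toSubmodule] at hfg
  obtain ⟨r, E, hE⟩ := Submodule.fg_iff_exists_fin_generating_family.mp hfg
  choose E' hE' using fun i => Ideal.Quotient.mk_surjective (I := I) (E i)
  refine ⟨r, fun i => (E' i : A), fun i => (E' i).2, ?_⟩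
  intro u hu
  have h1 : Ideal.Quotient.mk I ⟨u, hu⟩ ∈ Submodule.span V[X] (Set.range E) := by
    rw [hE]; trivial
  rw [Submodule.mem_span_range_iff_exists_fun] at h1
  obtain ⟨c, hc⟩ := h1
  have h2 : (⟨u, hu⟩ : U) - ∑ i, aeval y' (c i) * E' i ∈ I := by
    rw [← Ideal.Quotient.mk_eq_mk_iff_sub_mem, ← hc, map_sum]
    refine Finset.sum_congr rfl (fun i _ => ?_)
    rw [Algebra.smul_def, hmap, ← hE' i, map_mul]
    congr 1
    rw [aeval_algebraMap_apply]
    rfl
  obtain ⟨u', hu', h3⟩ := mem_span_smul h2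
  refine ⟨c, u', hu', ?_⟩
  rw [← h3]
  have h4 : ∀ i, ((aeval y' (c i) : U) : A) = aeval y (c i) := fun i => by
    rw [← Subalgebra.aeval_coe]
  simp only [AddSubgroupClass.coe_sub, AddSubmonoidClass.coe_finsetSum, MulMemClass.coe_mul, h4]
  ring

lemma span_iter {r : ℕ} {E : Fin r → A}
    (hE : ∀ u ∈ U, ∃ c : Fin r → V[X], ∃ u' ∈ U, u = ∑ i, aeval y (c i) * E i + ϖ • u') (n : ℕ) :
    ∀ u ∈ U, ∃ c : Fin r → V[X], ∃ u' ∈ U, u = ∑ i, aeval y (c i) * E i + ϖ ^ n • u' := by
  induction n with
  | zero => exact fun u hu => ⟨0, u, hu, by simp⟩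
  | succ n ih =>
    intro u hu
    obtain ⟨c, u', hu', h1⟩ := ih u hu
    obtain ⟨c', u'', hu'', h2⟩ := hE u' hu'
    refine ⟨fun i => c i + C (ϖ ^ n) * c' i, u'', hu'', ?_⟩
    rw [h1, h2]
    simp only [map_add, map_mul, aeval_C, add_mul, Finset.sum_add_distrib,
      Algebra.smul_def, map_pow]
    rw [mul_add, Finset.mul_sum, add_assoc]
    congr 1
    rw [pow_succ]
    congr 1
    · exact Finset.sum_congr rfl (fun i _ => by ring)
    · ring

lemma Gen.det_poly (G : Gen ϖ k U e y t) : ∃ d : ℕ, ∀ n : ℕ, ∃ D : V[X],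
    (∃ z, D.coeff d = 1 + ϖ * z) ∧ ∃ a : A, aeval y D = ϖ ^ n • a := by
  classical
  obtain ⟨f, hf, g, hg, hfg⟩ := G.exists_monic
  obtain ⟨r, E, hEU, hE⟩ := G.exists_span
  refine ⟨f.natDegree * r, fun n => ?_⟩
  have h1 : ∀ i, ∃ c : Fin r → V[X], ∃ u' ∈ U,
      g * E i = ∑ l, aeval y (c l) * E l + ϖ ^ n • u' := fun i =>
    span_iter hE n _ (U.mul_mem hg (hEU i))
  choose c u' hu' hc using h1
  set M : Matrix (Fin r) (Fin r) V[X] := Matrix.scalar (Fin r) f - (C ϖ) • Matrix.of c with hM
  refine ⟨M.det, ?_, ?_⟩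
  · -- the coefficient
    set q : V →+* V ⧸ Ideal.span ({ϖ} : Set V) := Ideal.Quotient.mk _ with hq
    have hqϖ : q ϖ = 0 := Ideal.Quotient.eq_zero_iff_mem.mpr (Ideal.mem_span_singleton_self _)
    have h2 : (M.det).map q = (f.map q) ^ r := by
      rw [← coe_mapRingHom, RingHom.map_det]
      have h3 : (mapRingHom q).mapMatrix M = Matrix.scalar (Fin r) (f.map q) := by
        ext i j : 1
        rw [RingHom.mapMatrix_apply, Matrix.map_apply, hM, Matrix.sub_apply, map_sub,
          Matrix.smul_apply, smul_eq_mul, map_mul, coe_mapRingHom, map_C, hqϖ, C_0, zero_mul,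
          sub_zero, Matrix.scalar_apply, Matrix.scalar_apply, Matrix.diagonal_apply,
          Matrix.diagonal_apply]
        split_ifs <;> simp
      rw [h3, Matrix.scalar_apply, Matrix.det_diagonal]
      simp
    have h4 : q (M.det.coeff (f.natDegree * r)) = 1 := by
      rw [← coeff_map, h2, ← Polynomial.map_pow, coeff_map]
      have h5 : (f ^ r).coeff (f.natDegree * r) = 1 := by
        have h6 := (hf.pow r).coeff_natDegree
        rwa [hf.natDegree_pow, mul_comm] at h6
      rw [h5, map_one]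
    have h7 : M.det.coeff (f.natDegree * r) - 1 ∈ Ideal.span ({ϖ} : Set V) := by
      rw [← Ideal.Quotient.eq_zero_iff_mem, map_sub, map_one, ← hq, h4, sub_self]
    rw [Ideal.mem_span_singleton] at h7
    obtain ⟨z, hz⟩ := h7
    exact ⟨z, by rw [← hz]; ring⟩
  · -- the value
    set MA : Matrix (Fin r) (Fin r) A := (aeval (R := V) y).toRingHom.mapMatrix M with hMA
    have hMA' : ∀ i l, MA i l = aeval y (M i l) := fun i l => rfl
    have h8 : MA.mulVec E = fun i => ϖ ^ n • (ϖ • u' i) := by
      funext i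
      rw [Matrix.mulVec, dotProduct]
      simp only [hMA', hM, Matrix.sub_apply, Matrix.smul_apply, Matrix.of_apply, map_sub, sub_mul,
        Finset.sum_sub_distrib, smul_eq_mul, map_mul, aeval_C, Matrix.scalar_apply,
        Matrix.diagonal_apply]
      have h9 : ∑ x, aeval y (if i = x then f else 0) * E x = aeval y f * E i := by
        rw [Finset.sum_eq_single i]
        · simp
        · intro b _ hb
          simp [Ne.symm hb]
        · intro h; exact absurd (Finset.mem_univ _) h
      rw [h9, hfg]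
      have h10 := hc i
      have h11 : ∑ x, (algebraMap V A) ϖ * aeval y (c i x) * E x =
          algebraMap V A ϖ * ∑ l, aeval y (c i l) * E l := by
        rw [Finset.mul_sum]
        exact Finset.sum_congr rfl (fun _ _ => by ring)
      rw [h11]
      simp only [Algebra.smul_def, map_pow] at h10 ⊢
      linear_combination (algebraMap V A ϖ) * h10
    have h12 : ∀ i, ∃ a : A, aeval y M.det * E i = ϖ ^ n • a := by
      intro i
      have h13 : MA.adjugate.mulVec (MA.mulVec E) = MA.det • E := by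
        rw [Matrix.mulVec_mulVec, Matrix.adjugate_mul, Matrix.smul_mulVec, Matrix.one_mulVec]
      have h14 := congrFun h13 i
      rw [h8, Pi.smul_apply, smul_eq_mul] at h14
      have h15 : aeval y M.det = MA.det := by
        rw [hMA, ← RingHom.map_det]
        rfl
      rw [h15, ← h14, Matrix.mulVec, dotProduct]
      refine ⟨∑ x, MA.adjugate i x * (ϖ • u' x), ?_⟩
      rw [Finset.smul_sum]
      exact Finset.sum_congr rfl (fun _ _ => by simp only [Algebra.smul_def]; ring)
    choose a ha using h12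
    obtain ⟨c1, u1, hu1, h16⟩ := span_iter hE n 1 U.one_mem
    refine ⟨∑ i, aeval y (c1 i) * a i + aeval y M.det * u1, ?_⟩
    calc aeval y M.det = aeval y M.det * 1 := (mul_one _).symm
      _ = ∑ i, aeval y (c1 i) * (aeval y M.det * E i) + ϖ ^ n • (aeval y M.det * u1) := by
          rw [h16, mul_add, Finset.mul_sum]
          congr 1
          · exact Finset.sum_congr rfl (fun _ _ => by ring)
          · simp only [Algebra.smul_def]; ring
      _ = _ := by
          rw [smul_add, Finset.smul_sum]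
          congr 1
          refine Finset.sum_congr rfl (fun i _ => ?_)
          rw [ha i]
          simp only [Algebra.smul_def]; ring

end fingen

section pow

open PowerSeries in
/-- coefficients of a small polynomial in `8 X² v` -/
lemma coeff_small {V : Type*} [CommRing V] {m : V} {v : PowerSeries V}
    (hv : IsUnit v) (D : V[X]) (a : PowerSeries V)
    (h : aeval (8 * (PowerSeries.X ^ 2 * v)) D = m • a) (i : ℕ) : m ∣ 8 ^ i * D.coeff i := by
  classical
  set q : V →+* V ⧸ Ideal.span ({m} : Set V) := Ideal.Quotient.mk _ with hq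
  have hqm : q m = 0 := Ideal.Quotient.eq_zero_iff_mem.mpr (Ideal.mem_span_singleton_self _)
  rw [← Ideal.mem_span_singleton, ← Ideal.Quotient.eq_zero_iff_mem]
  have h1 := congrArg (PowerSeries.map q) h
  have h2 : PowerSeries.map q (m • a) = 0 := by
    rw [PowerSeries.smul_eq_C_mul, map_mul, PowerSeries.map_C, hqm, map_zero, zero_mul]
  rw [h2, aeval_eq_sum_range, map_sum] at h1
  set v' := PowerSeries.map q v with hv'
  have hv'u : IsUnit v' := hv.map _
  have h3 : ∀ i, PowerSeries.map q (D.coeff i • (8 * (PowerSeries.X ^ 2 * v)) ^ i) =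
      PowerSeries.C (q (8 ^ i * D.coeff i)) * (PowerSeries.X ^ (2 * i) * v' ^ i) := by
    intro i
    rw [PowerSeries.smul_eq_C_mul, map_mul, PowerSeries.map_C, map_pow, map_mul, map_mul, map_pow,
      PowerSeries.map_X, map_ofNat, map_mul, map_mul, map_pow, map_pow, map_ofNat, map_ofNat]
    ring
  simp only [h3] at h1
  have key : ∀ i, q (8 ^ i * D.coeff i) = 0 := by
    intro i
    induction i using Nat.strong_induction_on with
    | _ i ih =>
    by_cases hi : D.natDegree < i
    · rw [Polynomial.coeff_eq_zero_of_natDegree_lt hi, mul_zero, map_zero]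
    push Not at hi
    have h4 := congrArg (PowerSeries.coeff (2 * i)) h1
    rw [map_sum, map_zero, Finset.sum_eq_single i] at h4
    · rw [PowerSeries.coeff_C_mul] at h4
      have h5 : PowerSeries.coeff (2 * i) (PowerSeries.X ^ (2 * i) * v' ^ i) =
          PowerSeries.constantCoeff (v' ^ i) := by
        have := PowerSeries.coeff_X_pow_mul (v' ^ i) (2 * i) 0
        rw [zero_add] at this
        rw [this, PowerSeries.coeff_zero_eq_constantCoeff_apply]
      rw [h5] at h4
      have h6 : IsUnit (PowerSeries.constantCoeff (v' ^ i)) :=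
        (hv'u.pow i).map _
      exact h6.mul_left_eq_zero.mp h4
    · intro l _ hl
      rcases Nat.lt_or_gt_of_ne hl with h7 | h7
      · rw [ih l h7, map_zero, zero_mul, map_zero]
      · rw [PowerSeries.coeff_C_mul, PowerSeries.coeff_X_pow_mul', if_neg (by omega), mul_zero]
    · intro h8
      exact absurd (Finset.mem_range.mpr (by omega)) h8
  exact key i

/-- The conclusion of the algebraic part. -/
theorem Gen.conclusion {V : Type*} [CommRing V] [IsLocalRing V] {ϖ : V}
    (hϖ : ϖ ∈ IsLocalRing.maximalIdeal V) {k : ℕ} [NeZero k] {U : Subalgebra V (PowerSeries V)}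
    {e : ZMod k → PowerSeries V} {v : PowerSeries V} {t : V}
    (G : Gen ϖ k U e (8 * (PowerSeries.X ^ 2 * v)) t) (hv : IsUnit v) :
    ∃ d : ℕ, ∀ n : ℕ, ϖ ^ n ∣ 8 ^ d := by
  obtain ⟨d, hd⟩ := G.det_poly
  refine ⟨d, fun n => ?_⟩
  obtain ⟨D, ⟨z, hz⟩, a, ha⟩ := hd n
  have h1 := coeff_small hv D a ha d
  rw [hz] at h1
  have hu : IsUnit (1 + ϖ * z) := by
    by_contra hcon
    have h2 : 1 + ϖ * z ∈ IsLocalRing.maximalIdeal V := hcon
    have h3 : (1 : V) ∈ IsLocalRing.maximalIdeal V := by
      have := Ideal.sub_mem _ h2 (Ideal.mul_mem_right z _ hϖ)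
      rwa [add_sub_cancel_right] at this
    exact h3 isUnit_one
  exact (IsUnit.dvd_mul_right hu).mp h1

end pow

end Pool.Agent.MPf2967f.Uni
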