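import Mathlib
import Pool.Agent.Lib.MP_f2967f_an.Res
import Pool.Agent.Lib.MP_f2967f_an.Uni.Alg

set_option autoImplicit false

/-!
# The system of relations between the local quantities
-/

namespace Pool.Agent.MPf2967f.Uni

open PowerSeries

/-- The relations between all the local quantities. -/
structure Sys (V : Type*) [CommRing V] (k : ℕ) [NeZero k] where
  κ : V
  θ : V
  hθ : IsUnit θ
  b : ZMod k → V
  b₂ : ZMod k → V
  hb : ∀ j, b j * b j = 1 + κ * b₂ j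
  e : ZMod k → V⟦X⟧
  e' : ZMod k → V⟦X⟧
  eI : ZMod k → V⟦X⟧
  eI' : ZMod k → V⟦X⟧
  w : ZMod k → V⟦X⟧
  Q : ZMod k → V⟦X⟧
  p : ZMod k → ℕ → V⟦X⟧
  m : ZMod k → ℕ → V⟦X⟧
  F : ZMod k → ℕ → ℕ → V⟦X⟧
  F' : ZMod k → ℕ → ℕ → V⟦X⟧
  he : ∀ j, e j * eI j = 1
  he' : ∀ j, e' j * eI' j = 1
  hprod : ∏ j, e j = C (θ ^ k)
  hprod' : ∏ j, e' j = C (θ ^ k)
  hQ : ∀ j, e' (j + 1) * Q (j + 1) = e j * Q j
  hp : ∀ j, p j 0 = 1
  hm : ∀ j, m j 0 = 1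
  hF : ∀ j h M, F j h M = Q j ^ (M + 1) * p j (h + M) * m j M + C (2 * κ ^ 2) * F j h (M + 1)
  hF' : ∀ j h M, F' j h M = Q j ^ (M + 1) * m j (h + M) * p j M + C (2 * κ ^ 2) * F' j h (M + 1)
  h1 : ∀ j, w j + C (b j) + C κ * F j 1 0 = e j + C (16 * κ ^ 2) * eI (j - 1)
  h1' : ∀ j, w j + C (b j) + C κ * F' j 1 0 = e' j + C (16 * κ ^ 2) * eI' (j + 1)
  h0 : ∀ j, w j ^ 2 + 2 * C (b j) * w j + F j 0 0 = C (8 * κ) * (w (j + 1) + w (j - 1))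
  hh : ∀ j n, e j ^ (n + 2) * p (j + 1) (n + 1) =
    C ((4 * κ) ^ n) * ∑ a ∈ Finset.range (n + 1), p j a * p j (n - a) +
    C ((4 * κ) ^ (n + 1)) * ((w j + C (b j)) * p j (n + 1)) +
    C ((4 * κ) ^ (n + 1) * κ) * F j (n + 2) 0 -
    C ((4 * κ) ^ (2 * (n + 2))) * (eI (j - 1) ^ (n + 2) * p (j - 1) (n + 1))
  hh' : ∀ j n, e' j ^ (n + 2) * m (j - 1) (n + 1) =
    C ((4 * κ) ^ n) * ∑ a ∈ Finset.range (n + 1), m j a * m j (n - a) +
    C ((4 * κ) ^ (n + 1)) * ((w j + C (b j)) * m j (n + 1)) +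
    C ((4 * κ) ^ (n + 1) * κ) * F' j (n + 2) 0 -
    C ((4 * κ) ^ (2 * (n + 2))) * (eI' (j + 1) ^ (n + 2) * m (j + 1) (n + 1))

namespace Sys

variable {V : Type*} [CommRing V] {k : ℕ} [NeZero k] (S : Sys V k)

/-- all the quantities -/
def vars : Set V⟦X⟧ := Set.range S.e ∪ Set.range S.eI ∪ Set.range S.e' ∪ Set.range S.eI' ∪
  Set.range S.w ∪ Set.range S.Q ∪ Set.range (fun x : ZMod k × ℕ => S.p x.1 x.2) ∪
  Set.range (fun x : ZMod k × ℕ => S.m x.1 x.2) ∪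
  Set.range (fun x : ZMod k × ℕ × ℕ => S.F x.1 x.2.1 x.2.2) ∪
  Set.range (fun x : ZMod k × ℕ × ℕ => S.F' x.1 x.2.1 x.2.2)

/-- the algebra generated by all the quantities -/
noncomputable def U : Subalgebra V V⟦X⟧ := Algebra.adjoin V S.vars

/-- the algebra generated by the main quantities -/
noncomputable def P : Subalgebra V V⟦X⟧ := Algebra.adjoin V (Set.range S.e ∪ {S.e 0 * S.Q 0})

lemma e_mem (j) : S.e j ∈ S.U := Algebra.subset_adjoin (by simp [vars])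
lemma eI_mem (j) : S.eI j ∈ S.U := Algebra.subset_adjoin (by simp [vars])
lemma e'_mem (j) : S.e' j ∈ S.U := Algebra.subset_adjoin (by simp [vars])
lemma eI'_mem (j) : S.eI' j ∈ S.U := Algebra.subset_adjoin (by simp [vars])
lemma w_mem (j) : S.w j ∈ S.U := Algebra.subset_adjoin (by simp [vars])
lemma Q_mem (j) : S.Q j ∈ S.U := Algebra.subset_adjoin (by simp [vars])
lemma p_mem (j n) : S.p j n ∈ S.U := Algebra.subset_adjoin (by simp [vars])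
lemma m_mem (j n) : S.m j n ∈ S.U := Algebra.subset_adjoin (by simp [vars])
lemma F_mem (j h n) : S.F j h n ∈ S.U := Algebra.subset_adjoin (by simp [vars])
lemma F'_mem (j h n) : S.F' j h n ∈ S.U := Algebra.subset_adjoin (by simp [vars])

lemma C_mem (v : V) : (C v : V⟦X⟧) ∈ S.U := S.U.algebraMap_mem v

lemma P_le : S.P ≤ S.U := by
  rw [P, Algebra.adjoin_le_iff]
  rintro _ (⟨j, rfl⟩ | rfl)
  · exact S.e_mem j
  · exact S.U.mul_mem (S.e_mem 0) (S.Q_mem 0)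

/-- membership in `P + κ U` -/
def Mem (f : V⟦X⟧) : Prop := ∃ p ∈ S.P, ∃ u ∈ S.U, f = p + C S.κ * u

variable {S}

lemma Mem.of_P {f : V⟦X⟧} (h : f ∈ S.P) : S.Mem f := ⟨f, h, 0, S.U.zero_mem, by simp⟩

lemma Mem.of_U {f : V⟦X⟧} (h : f ∈ S.U) : S.Mem (C S.κ * f) := ⟨0, S.P.zero_mem, f, h, by simp⟩

lemma Mem.add {f g : V⟦X⟧} (hf : S.Mem f) (hg : S.Mem g) : S.Mem (f + g) := by
  obtain ⟨p, hp, u, hu, rfl⟩ := hf
  obtain ⟨q, hq, v, hv, rfl⟩ := hg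
  exact ⟨p + q, S.P.add_mem hp hq, u + v, S.U.add_mem hu hv, by ring⟩

lemma Mem.mul {f g : V⟦X⟧} (hf : S.Mem f) (hg : S.Mem g) : S.Mem (f * g) := by
  obtain ⟨p, hp, u, hu, rfl⟩ := hf
  obtain ⟨q, hq, v, hv, rfl⟩ := hg
  exact ⟨p * q, S.P.mul_mem hp hq, p * v + u * q + C S.κ * (u * v),
    S.U.add_mem (S.U.add_mem (S.U.mul_mem (S.P_le hp) hv) (S.U.mul_mem hu (S.P_le hq)))
      (S.U.mul_mem (S.C_mem _) (S.U.mul_mem hu hv)), by ring⟩

lemma Mem.C (v : V) : S.Mem (C v) := Mem.of_P (S.P.algebraMap_mem v)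

lemma Mem.one : S.Mem 1 := Mem.of_P S.P.one_mem

lemma Mem.pow {f : V⟦X⟧} (hf : S.Mem f) (n : ℕ) : S.Mem (f ^ n) := by
  induction n with
  | zero => rw [pow_zero]; exact Mem.one
  | succ n ih => rw [pow_succ]; exact ih.mul hf

lemma Mem.prod {ι : Type*} (s : Finset ι) (f : ι → V⟦X⟧) (hf : ∀ i ∈ s, S.Mem (f i)) :
    S.Mem (∏ i ∈ s, f i) := by
  classical
  induction s using Finset.induction_on with
  | empty => rw [Finset.prod_empty]; exact Mem.one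
  | insert a s ha ih =>
    rw [Finset.prod_insert ha]
    exact (hf a (Finset.mem_insert_self _ _)).mul
      (ih (fun i hi => hf i (Finset.mem_insert_of_mem hi)))

lemma inv_eq (S : Sys V k) (f g : ZMod k → V⟦X⟧) (hfg : ∀ j, f j * g j = 1)
    (hf : ∏ j, f j = PowerSeries.C (S.θ ^ k)) (j : ZMod k) :
    ∃ v : V, g j = PowerSeries.C v * ∏ i ∈ Finset.univ.erase j, f i := by
  classical
  obtain ⟨v, hv⟩ := (S.hθ.pow k).exists_left_inv
  refine ⟨v, ?_⟩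
  have h1 : (∏ i ∈ Finset.univ.erase j, f i) * f j = PowerSeries.C (S.θ ^ k) := by
    rw [Finset.prod_erase_mul _ _ (Finset.mem_univ j), hf]
  have h2 : (PowerSeries.C v : V⟦X⟧) * PowerSeries.C (S.θ ^ k) = 1 := by
    rw [← map_mul, hv, map_one]
  have h3 := hfg j
  linear_combination (-PowerSeries.C v * g j) * h1 - (g j) * h2 +
    (PowerSeries.C v * ∏ i ∈ Finset.univ.erase j, f i) * h3

variable (S)

lemma mem_e (j) : S.Mem (S.e j) := Mem.of_P (Algebra.subset_adjoin (by simp))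

lemma mem_eI (j) : S.Mem (S.eI j) := by
  obtain ⟨v, hv⟩ := S.inv_eq S.e S.eI S.he S.hprod j
  rw [hv]
  exact (Mem.C v).mul (Mem.prod _ _ (fun i _ => S.mem_e i))

lemma e'_eq (j) : ∃ u ∈ S.U, S.e' j = S.e j + C S.κ * u := by
  refine ⟨S.F' j 1 0 - S.F j 1 0 + C (16 * S.κ) * (S.eI (j - 1) - S.eI' (j + 1)),
    S.U.add_mem (S.U.sub_mem (S.F'_mem _ _ _) (S.F_mem _ _ _))
      (S.U.mul_mem (S.C_mem _) (S.U.sub_mem (S.eI_mem _) (S.eI'_mem _))), ?_⟩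
  have h1 := S.h1 j
  have h2 := S.h1' j
  have h3 : (C (16 * S.κ ^ 2) : V⟦X⟧) = C S.κ * C (16 * S.κ) := by
    rw [← map_mul]; congr 1; ring
  rw [h3] at h1 h2
  linear_combination h1 - h2

lemma mem_e' (j) : S.Mem (S.e' j) := by
  obtain ⟨u, hu, h⟩ := S.e'_eq j
  rw [h]
  exact (S.mem_e j).add (Mem.of_U hu)

lemma mem_eI' (j) : S.Mem (S.eI' j) := by
  obtain ⟨v, hv⟩ := S.inv_eq S.e' S.eI' S.he' S.hprod' j
  rw [hv]
  exact (Mem.C v).mul (Mem.prod _ _ (fun i _ => S.mem_e' i))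

lemma e_eq (j) : ∃ u ∈ S.U, S.e j = S.w j + C (S.b j) + C S.κ * u := by
  refine ⟨S.F j 1 0 - C (16 * S.κ) * S.eI (j - 1),
    S.U.sub_mem (S.F_mem _ _ _) (S.U.mul_mem (S.C_mem _) (S.eI_mem _)), ?_⟩
  have h1 := S.h1 j
  have h3 : (C (16 * S.κ ^ 2) : V⟦X⟧) = C S.κ * C (16 * S.κ) := by
    rw [← map_mul]; congr 1; ring
  rw [h3] at h1
  linear_combination -h1

lemma mem_w (j) : S.Mem (S.w j) := by
  obtain ⟨u, hu, h⟩ := S.e_eq j
  have : S.w j = S.e j + C (-(S.b j)) + C S.κ * (-u) := by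
    rw [h, map_neg]; ring
  rw [this]
  exact ((S.mem_e j).add (Mem.C _)).add (Mem.of_U (S.U.neg_mem hu))

lemma eQ_eq (j) : ∃ u ∈ S.U, S.e j * S.Q j = S.e 0 * S.Q 0 + C S.κ * u := by
  refine cycle_induction (P := fun j => ∃ u ∈ S.U, S.e j * S.Q j = S.e 0 * S.Q 0 + C S.κ * u) 0
    ⟨0, S.U.zero_mem, by simp⟩ ?_ j
  rintro j ⟨u, hu, h⟩
  obtain ⟨u', hu', h'⟩ := S.e'_eq (j + 1)
  refine ⟨u - u' * S.Q (j + 1), S.U.sub_mem hu (S.U.mul_mem hu' (S.Q_mem _)), ?_⟩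
  have hQ := S.hQ j
  rw [h'] at hQ
  linear_combination hQ + h

lemma mem_Q (j) : S.Mem (S.Q j) := by
  obtain ⟨u, hu, h⟩ := S.eQ_eq j
  have h1 : S.Q j = S.eI j * (S.e 0 * S.Q 0 + C S.κ * u) := by
    have := S.he j
    linear_combination (-S.Q j) * this + (S.eI j) * h
  rw [h1]
  exact (S.mem_eI j).mul ((Mem.of_P (Algebra.subset_adjoin (by simp))).add (Mem.of_U hu))

lemma mem_hh (f : ℕ → V⟦X⟧) (hf0 : f 0 = 1) (hf : ∀ n, f n ∈ S.U) (E EI G : V⟦X⟧) (hE : E * EI = 1)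
    (hEI : S.Mem EI) (g : V⟦X⟧) (n : ℕ) (hG : G ∈ S.U)
    (h : E ^ (n + 2) * g = C ((4 * S.κ) ^ n) * ∑ a ∈ Finset.range (n + 1), f a * f (n - a) +
      C S.κ * G) : S.Mem g := by
  have h1 : g = EI ^ (n + 2) * (C ((4 * S.κ) ^ n) * ∑ a ∈ Finset.range (n + 1), f a * f (n - a) +
      C S.κ * G) := by
    rw [← h, ← mul_assoc, ← mul_pow, mul_comm EI E, hE, one_pow, one_mul]
  rw [h1]
  refine (hEI.pow _).mul (Mem.add ?_ (Mem.of_U hG))
  rcases n with _ | n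
  · simp only [pow_zero, map_one, zero_add, Finset.range_one, Finset.sum_singleton, hf0,
      Nat.sub_self, mul_one]
    exact Mem.one
  · have h2 : C ((4 * S.κ) ^ (n + 1)) * ∑ a ∈ Finset.range (n + 1 + 1), f a * f (n + 1 - a) =
        C S.κ * (C (4 * (4 * S.κ) ^ n) * ∑ a ∈ Finset.range (n + 1 + 1), f a * f (n + 1 - a)) := by
      rw [← mul_assoc, ← map_mul]
      congr 2
      ring
    rw [h2]
    exact Mem.of_U (S.U.mul_mem (S.C_mem _) (S.U.sum_mem (fun a _ => S.U.mul_mem (hf _) (hf _))))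

lemma mem_p (j n) : S.Mem (S.p j n) := by
  rcases n with _ | n
  · rw [S.hp]; exact Mem.one
  · have h := S.hh (j - 1) n
    rw [sub_add_cancel] at h
    refine S.mem_hh (S.p (j - 1)) (S.hp _) (S.p_mem _) (S.e (j - 1)) (S.eI (j - 1))
      (C (4 * (4 * S.κ) ^ n) * ((S.w (j - 1) + C (S.b (j - 1))) * S.p (j - 1) (n + 1)) +
        C ((4 * S.κ) ^ (n + 1)) * S.F (j - 1) (n + 2) 0 -
        C (4 * (4 * S.κ) ^ (2 * n + 3)) * (S.eI (j - 1 - 1) ^ (n + 2) * S.p (j - 1 - 1) (n + 1)))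
      (S.he _) (S.mem_eI _) _ n ?_ ?_
    · exact S.U.sub_mem (S.U.add_mem
        (S.U.mul_mem (S.C_mem _) (S.U.mul_mem (S.U.add_mem (S.w_mem _) (S.C_mem _)) (S.p_mem _ _)))
        (S.U.mul_mem (S.C_mem _) (S.F_mem _ _ _)))
        (S.U.mul_mem (S.C_mem _) (S.U.mul_mem (S.U.pow_mem (S.eI_mem _) _) (S.p_mem _ _)))
    · rw [h]
      simp only [map_mul, map_pow, map_ofNat]
      ring

lemma mem_m (j n) : S.Mem (S.m j n) := by
  rcases n with _ | n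
  · rw [S.hm]; exact Mem.one
  · have h := S.hh' (j + 1) n
    rw [add_sub_cancel_right] at h
    refine S.mem_hh (S.m (j + 1)) (S.hm _) (S.m_mem _) (S.e' (j + 1)) (S.eI' (j + 1))
      (C (4 * (4 * S.κ) ^ n) * ((S.w (j + 1) + C (S.b (j + 1))) * S.m (j + 1) (n + 1)) +
        C ((4 * S.κ) ^ (n + 1)) * S.F' (j + 1) (n + 2) 0 -
        C (4 * (4 * S.κ) ^ (2 * n + 3)) * (S.eI' (j + 1 + 1) ^ (n + 2) * S.m (j + 1 + 1) (n + 1)))
      (S.he' _) (S.mem_eI' _) _ n ?_ ?_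
    · exact S.U.sub_mem (S.U.add_mem
        (S.U.mul_mem (S.C_mem _) (S.U.mul_mem (S.U.add_mem (S.w_mem _) (S.C_mem _)) (S.m_mem _ _)))
        (S.U.mul_mem (S.C_mem _) (S.F'_mem _ _ _)))
        (S.U.mul_mem (S.C_mem _) (S.U.mul_mem (S.U.pow_mem (S.eI'_mem _) _) (S.m_mem _ _)))
    · rw [h]
      simp only [map_mul, map_pow, map_ofNat]
      ring

lemma mem_F (j h M) : S.Mem (S.F j h M) := by
  rw [S.hF]
  refine ((((S.mem_Q j).pow _).mul (S.mem_p _ _)).mul (S.mem_m _ _)).add ?_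
  have : C (2 * S.κ ^ 2) * S.F j h (M + 1) = C S.κ * (C (2 * S.κ) * S.F j h (M + 1)) := by
    rw [← mul_assoc, ← map_mul]; congr 2; ring
  rw [this]
  exact Mem.of_U (S.U.mul_mem (S.C_mem _) (S.F_mem _ _ _))

lemma mem_F' (j h M) : S.Mem (S.F' j h M) := by
  rw [S.hF']
  refine ((((S.mem_Q j).pow _).mul (S.mem_m _ _)).mul (S.mem_p _ _)).add ?_
  have : C (2 * S.κ ^ 2) * S.F' j h (M + 1) = C S.κ * (C (2 * S.κ) * S.F' j h (M + 1)) := by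
    rw [← mul_assoc, ← map_mul]; congr 2; ring
  rw [this]
  exact Mem.of_U (S.U.mul_mem (S.C_mem _) (S.F'_mem _ _ _))

lemma mem_all (f : V⟦X⟧) (hf : f ∈ S.U) : S.Mem f := by
  rw [U] at hf
  induction hf using Algebra.adjoin_induction with
  | mem x hx =>
    simp only [vars, Set.mem_union, Set.mem_range] at hx
    rcases hx with ((((((((⟨j, rfl⟩ | ⟨j, rfl⟩) | ⟨j, rfl⟩) | ⟨j, rfl⟩) | ⟨j, rfl⟩) | ⟨j, rfl⟩) |
      ⟨j, rfl⟩) | ⟨j, rfl⟩) | ⟨j, rfl⟩) | ⟨j, rfl⟩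
    · exact S.mem_e _
    · exact S.mem_eI _
    · exact S.mem_e' _
    · exact S.mem_eI' _
    · exact S.mem_w _
    · exact S.mem_Q _
    · exact S.mem_p _ _
    · exact S.mem_m _ _
    · exact S.mem_F _ _ _
    · exact S.mem_F' _ _ _
  | algebraMap v => exact Mem.C v
  | add a b ha hb iha ihb => exact iha.add ihb
  | mul a b ha hb iha ihb => exact iha.mul ihb

lemma rel (j) : ∃ g ∈ S.U, S.e j ^ 3 - S.e j + S.e 0 * S.Q 0 = C S.κ * g := by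
  obtain ⟨u, hu, h1⟩ := S.e_eq j
  obtain ⟨v, hv, h2⟩ := S.eQ_eq j
  have h3 := S.h0 j
  have h4 := S.hF j 0 0
  rw [S.hp, S.hm] at h4
  have h5 : (C (S.b j) : V⟦X⟧) * C (S.b j) = 1 + C S.κ * C (S.b₂ j) := by
    rw [← map_mul, S.hb j, map_add, map_one, map_mul]
  refine ⟨S.e j * (C 8 * (S.w (j + 1) + S.w (j - 1)) - C (2 * S.κ) * S.F j 0 1 +
    C 2 * u * (S.w j + C (S.b j)) + C S.κ * u ^ 2) + S.e j * C (S.b₂ j) - v, ?_, ?_⟩
  · refine S.U.sub_mem (S.U.add_mem (S.U.mul_mem (S.e_mem j) (S.U.add_mem (S.U.add_mem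
      (S.U.sub_mem ?_ ?_) ?_) ?_)) ?_) hv
    · exact S.U.mul_mem (S.C_mem _) (S.U.add_mem (S.w_mem _) (S.w_mem _))
    · exact S.U.mul_mem (S.C_mem _) (S.F_mem _ _ _)
    · exact S.U.mul_mem (S.U.mul_mem (S.C_mem _) hu) (S.U.add_mem (S.w_mem _) (S.C_mem _))
    · exact S.U.mul_mem (S.C_mem _) (S.U.pow_mem hu _)
    · exact S.U.mul_mem (S.e_mem j) (S.C_mem _)
  · have e8 : (C (8 * S.κ) : V⟦X⟧) = C S.κ * C 8 := by rw [← map_mul]; congr 1; ring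
    have e2 : (C (2 * S.κ ^ 2) : V⟦X⟧) = C S.κ * C (2 * S.κ) := by rw [← map_mul]; congr 1; ring
    have e3 : (C (2 : V) : V⟦X⟧) = 2 := map_ofNat _ 2
    rw [e8] at h3
    rw [e2] at h4
    simp only [zero_add, pow_one, mul_one] at h4
    rw [h4] at h3
    rw [e3]
    have h6 : S.e j ^ 2 - C (S.b j) * C (S.b j) + S.Q j =
        C S.κ * (C 8 * (S.w (j + 1) + S.w (j - 1)) - C (2 * S.κ) * S.F j 0 1 +
        2 * u * (S.w j + C (S.b j)) + C S.κ * u ^ 2) := by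
      have h7 : S.e j ^ 2 = (S.w j + C (S.b j) + C S.κ * u) ^ 2 := by rw [h1]
      linear_combination h3 + h7
    linear_combination (S.e j) * h6 + (S.e j) * h5 - h2

/-- The algebraic conclusion for a system over a local ring. -/
theorem conclusion [IsLocalRing V] (hκ : S.κ ∈ IsLocalRing.maximalIdeal V) {v : V⟦X⟧}
    (hv : IsUnit v) (hQv : S.Q 0 = 8 * (X ^ 2 * v)) : ∃ d : ℕ, ∀ n : ℕ, S.κ ^ n ∣ 8 ^ d := by
  have h1 : S.e 0 * S.Q 0 = 8 * (X ^ 2 * (S.e 0 * v)) := by rw [hQv]; ring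
  have G : Gen S.κ k S.U S.e (8 * (X ^ 2 * (S.e 0 * v))) (S.θ ^ k) := by
    rw [← h1]
    refine ⟨S.e_mem, S.U.mul_mem (S.e_mem 0) (S.Q_mem 0), ?_, ?_, S.hθ.pow k, S.hprod⟩
    · intro u hu
      obtain ⟨p, hp, u', hu', h⟩ := S.mem_all u hu
      exact ⟨p, hp, u', hu', by rw [h, smul_eq_C_mul]⟩
    · intro j
      obtain ⟨g, hg, h⟩ := S.rel j
      exact ⟨g, hg, by rw [h, smul_eq_C_mul]⟩
  exact G.conclusion hκ ((IsUnit.of_mul_eq_one _ (S.he 0)).mul hv)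

end Sys

end Pool.Agent.MPf2967f.Uni
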