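import Mathlib
import Pool.Agent.Lib.MP_f2967f_an.Uni.Sys

set_option autoImplicit false

/-!
# From the harmonics of the formal solution to the system of relations
-/

namespace Pool.Agent.MPf2967f.Uni

open PowerSeries

/-- The harmonics of the formal solution. -/
structure Arr (V : Type*) [CommRing V] (k : ℕ) [NeZero k] where
  κ : V
  θ : V
  hθ : IsUnit θ
  b : ZMod k → V
  hb : ∀ j, ∃ g, b j * b j = 1 + κ * g
  H : ZMod k → ℤ → V⟦X⟧
  H2 : ZMod k → ℤ → V⟦X⟧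
  T : ZMod k → ℕ → ℕ → V⟦X⟧
  T' : ZMod k → ℕ → ℕ → V⟦X⟧
  hX : ∀ j (n : ℕ), X ^ n ∣ H j n
  hX' : ∀ j (n : ℕ), X ^ n ∣ H j (-n)
  u1 : ∀ j, ∃ v, IsUnit v ∧ H j 1 = X * v
  u2 : ∀ j, ∃ v, IsUnit v ∧ H j (-1) = X * v
  hT : ∀ j (h M : ℕ), T j h M = H j (h + M + 1) * H j (-(M + 1)) + T j h (M + 1)
  hTX : ∀ j h M, X ^ M ∣ T j h M
  hT' : ∀ j (h M : ℕ), T' j h M = H j (-(h + M + 1)) * H j (M + 1) + T' j h (M + 1)
  hTX' : ∀ j h M, X ^ M ∣ T' j h M
  hconv : ∀ j (h : ℕ), H2 j h = ∑ a ∈ Finset.range (h + 1), H j a * H j ((h - a : ℕ) : ℤ) +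
    2 * T j h 0
  hconv' : ∀ j (h : ℕ), H2 j (-h) = ∑ a ∈ Finset.range (h + 1), H j (-a) *
    H j (-((h - a : ℕ) : ℤ)) + 2 * T' j h 0
  eq0 : ∀ j, H2 j 0 + C (b j) * H j 0 = C (4 * κ) * (H (j + 1) 0 + H (j - 1) 0)
  eqp : ∀ j (m : ℕ), C (θ ^ (m + 1)) * (C ((4 * κ) ^ m) * (H2 j (m + 1) + C (b j) * H j (m + 1))) =
    C (θ ^ (2 * (m + 1))) * H (j + 1) (m + 1) + C ((4 * κ) ^ (2 * (m + 1))) * H (j - 1) (m + 1)
  eqm : ∀ j (m : ℕ), C (θ ^ (m + 1)) * (C ((4 * κ) ^ m) * (H2 j (-(m + 1)) +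
    C (b j) * H j (-(m + 1)))) =
    C (θ ^ (2 * (m + 1))) * H (j - 1) (-(m + 1)) + C ((4 * κ) ^ (2 * (m + 1))) * H (j + 1) (-(m + 1))

namespace Arr

variable {V : Type*} [CommRing V] {k : ℕ} [NeZero k]

/-- reversal -/
def rev (S : Arr V k) : Arr V k where
  κ := S.κ
  θ := S.θ
  hθ := S.hθ
  b := fun j => S.b (-j)
  hb := fun j => S.hb (-j)
  H := fun j h => S.H (-j) (-h)
  H2 := fun j h => S.H2 (-j) (-h)
  T := fun j => S.T' (-j)
  T' := fun j => S.T (-j)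
  hX := fun j n => S.hX' (-j) n
  hX' := fun j n => by simpa using S.hX (-j) n
  u1 := fun j => S.u2 (-j)
  u2 := fun j => by simpa using S.u1 (-j)
  hT := fun j h M => by simpa using S.hT' (-j) h M
  hTX := fun j => S.hTX' (-j)
  hT' := fun j h M => by simpa using S.hT (-j) h M
  hTX' := fun j => S.hTX (-j)
  hconv := fun j h => by simpa using S.hconv' (-j) h
  hconv' := fun j h => by simpa using S.hconv (-j) h
  eq0 := fun j => by
    have := S.eq0 (-j)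
    have e1 : -(j + 1) = -j - 1 := by ring
    have e2 : -(j - 1) = -j + 1 := by ring
    rw [e1, e2, neg_zero, this]
    ring
  eqp := fun j m => by
    have := S.eqm (-j) m
    have e1 : -(j + 1) = -j - 1 := by ring
    have e2 : -(j - 1) = -j + 1 := by ring
    rw [e1, e2, this]
  eqm := fun j m => by
    have := S.eqp (-j) m
    have e1 : -(j + 1) = -j - 1 := by ring
    have e2 : -(j - 1) = -j + 1 := by ring
    rw [e1, e2, neg_neg, this]

variable (S : Arr V k)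

lemma H1_ne [Nontrivial V] (j) : S.H j 1 ≠ 0 := by
  obtain ⟨v, hv, h⟩ := S.u1 j
  rw [h]
  intro h0
  have h1 := congrArg (coeff 1) h0
  rw [map_zero, ← zero_add 1, coeff_succ_X_mul] at h1
  have h2 : IsUnit (constantCoeff v) := hv.map _
  rw [← coeff_zero_eq_constantCoeff_apply, h1] at h2
  exact not_isUnit_zero h2

variable [IsDomain V]

lemma X_pow_dvd_of_C_mul {a : V} (ha : a ≠ 0) {n : ℕ} {f : V⟦X⟧} (h : X ^ n ∣ C a * f) :
    X ^ n ∣ f := by
  rw [X_pow_dvd_iff] at h ⊢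
  intro m hm
  have := h m hm
  rw [coeff_C_mul] at this
  exact (mul_eq_zero.mp this).resolve_left ha

lemma exists_p (hκ : (4 * S.κ : V) ≠ 0) : ∃ p : ZMod k → ℕ → V⟦X⟧,
    ∀ j (n : ℕ), S.H j (n + 1) = C ((4 * S.κ) ^ n) * S.H j 1 ^ (n + 1) * p j n := by
  have key : ∀ j (n : ℕ), ∃ q : V⟦X⟧,
      S.H j (n + 1) = C ((4 * S.κ) ^ n) * S.H j 1 ^ (n + 1) * q := by
    intro j n
    obtain ⟨θ', hθ'⟩ := S.hθ.exists_right_inv
    have h1 := S.eqp (j - 1) n
    rw [sub_add_cancel] at h1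
    have h2 : (C (θ' ^ (2 * (n + 1))) : V⟦X⟧) * C (S.θ ^ (2 * (n + 1))) = 1 := by
      rw [← map_mul, ← mul_pow, mul_comm θ', hθ', one_pow, map_one]
    obtain ⟨Z, hZ⟩ : ∃ Z : V⟦X⟧, S.H j (n + 1) = C ((4 * S.κ) ^ n) * Z := by
      refine ⟨C (θ' ^ (2 * (n + 1))) * (C (S.θ ^ (n + 1)) *
        (S.H2 (j - 1) (n + 1) + C (S.b (j - 1)) * S.H (j - 1) (n + 1)) -
        C ((4 * S.κ) ^ (n + 2)) * S.H (j - 1 - 1) (n + 1)), ?_⟩
      have h3 : (C ((4 * S.κ) ^ (2 * (n + 1))) : V⟦X⟧) = C ((4 * S.κ) ^ n) *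
          C ((4 * S.κ) ^ (n + 2)) := by
        rw [← map_mul]; congr 1; ring
      rw [h3] at h1
      linear_combination (-S.H j (n + 1)) * h2 - C (θ' ^ (2 * (n + 1))) * h1
    have h4 : X ^ (n + 1) ∣ Z := by
      apply X_pow_dvd_of_C_mul (pow_ne_zero n hκ)
      rw [← hZ]
      have := S.hX j (n + 1)
      push_cast at this
      exact this
    obtain ⟨Z', hZ'⟩ := h4
    obtain ⟨v, hv, hv'⟩ := S.u1 j
    obtain ⟨v', hvv⟩ := hv.exists_right_inv
    refine ⟨v' ^ (n + 1) * Z', ?_⟩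
    rw [hZ, hZ', hv', mul_pow X v]
    have h5 : v ^ (n + 1) * v' ^ (n + 1) = 1 := by rw [← mul_pow, hvv, one_pow]
    linear_combination (-C ((4 * S.κ) ^ n) * X ^ (n + 1) * Z') * h5
  choose p hp using key
  exact ⟨p, hp⟩

lemma p_zero {p : ZMod k → ℕ → V⟦X⟧}
    (hp : ∀ j (n : ℕ), S.H j (n + 1) = C ((4 * S.κ) ^ n) * S.H j 1 ^ (n + 1) * p j n) (j) :
    p j 0 = 1 := by
  have h := hp j 0
  simp only [Nat.cast_zero, zero_add, pow_zero, map_one, one_mul, pow_one] at h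
  apply mul_left_cancel₀ (S.H1_ne j)
  rw [← h, mul_one]

omit [IsDomain V] in
/-- infinite sums -/
lemma exists_tail (q : V⟦X⟧) (hq : X ∣ q) (g : ℕ → V⟦X⟧) (l : V) : ∃ G : ℕ → V⟦X⟧,
    ∀ M, G M = q ^ (M + 1) * g M + C l * G (M + 1) ∧ X ^ M ∣ G M := by
  refine ⟨fun M => PowerSeries.mk (fun n => ∑ i ∈ Finset.Icc M n,
    l ^ (i - M) * coeff n (q ^ (i + 1) * g i)), fun M => ⟨?_, ?_⟩⟩
  · ext n
    rw [coeff_mk, map_add, coeff_C_mul, coeff_mk]
    rcases Nat.lt_or_ge n M with h | h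
    · rw [Finset.Icc_eq_empty (by omega), Finset.Icc_eq_empty (by omega), Finset.sum_empty,
        Finset.sum_empty, mul_zero, add_zero]
      have h1 : X ^ (M + 1) ∣ q ^ (M + 1) * g M := (pow_dvd_pow_of_dvd hq _).mul_right _
      rw [X_pow_dvd_iff] at h1
      exact (h1 n (by omega)).symm
    · rw [← Finset.insert_Icc_succ_left_eq_Icc h, Finset.sum_insert (by simp), Nat.sub_self,
        pow_zero, one_mul, Finset.mul_sum]
      congr 1
      refine Finset.sum_congr rfl (fun i hi => ?_)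
      rw [Finset.mem_Icc] at hi
      have h2 : M + 1 ≤ i := hi.1
      rw [← mul_assoc, ← pow_succ']
      congr 2
      omega
  · rw [X_pow_dvd_iff]
    intro n hn
    rw [coeff_mk, Finset.Icc_eq_empty (by omega), Finset.sum_empty]

lemma tail_unique (h8 : (8 : V) ≠ 0) (D : ℕ → V⟦X⟧) (hD : ∀ M, 8 * D M = D (M + 1))
    (hX : ∀ M, X ^ M ∣ D M) : D 0 = 0 := by
  have h1 : ∀ M, 8 ^ M * D 0 = D M := by
    intro M
    induction M with
    | zero => simp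
    | succ M ih => rw [← hD, ← ih]; ring
  ext n
  have h2 := hX (n + 1)
  rw [← h1] at h2
  rw [X_pow_dvd_iff] at h2
  have h3 := h2 n (by omega)
  have h4 : (8 : V⟦X⟧) ^ (n + 1) = C (8 ^ (n + 1)) := by rw [map_pow, map_ofNat]
  rw [h4, coeff_C_mul] at h3
  rw [map_zero]
  exact (mul_eq_zero.mp h3).resolve_left (pow_ne_zero _ h8)

lemma exists_G (h8 : (8 : V) ≠ 0) {p m : ZMod k → ℕ → V⟦X⟧}
    (hp : ∀ j (n : ℕ), S.H j (n + 1) = C ((4 * S.κ) ^ n) * S.H j 1 ^ (n + 1) * p j n)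
    (hm : ∀ j (n : ℕ), S.H j (-(n + 1)) = C ((4 * S.κ) ^ n) * S.H j (-1) ^ (n + 1) * m j n) :
    ∃ G : ZMod k → ℕ → ℕ → V⟦X⟧,
      (∀ j h M, G j h M = (8 * (S.H j 1 * S.H j (-1))) ^ (M + 1) * p j (h + M) * m j M +
        C (2 * S.κ ^ 2) * G j h (M + 1)) ∧
      ∀ j h, 8 * S.T j h 0 = C ((4 * S.κ) ^ h) * S.H j 1 ^ h * G j h 0 := by
  have hXq : ∀ j, X ∣ 8 * (S.H j 1 * S.H j (-1)) := by
    intro j
    obtain ⟨v, -, hv⟩ := S.u1 j
    rw [hv]
    exact ⟨8 * (v * S.H j (-1)), by ring⟩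
  choose G hG using fun j h => exists_tail (8 * (S.H j 1 * S.H j (-1))) (hXq j)
    (fun M => p j (h + M) * m j M) (2 * S.κ ^ 2)
  refine ⟨G, fun j h M => ?_, fun j h => ?_⟩
  · rw [(hG j h M).1, mul_assoc]
  · have key := tail_unique h8 (fun M => 8 ^ (M + 1) * S.T j h M -
      C ((4 * S.κ) ^ (h + 2 * M)) * S.H j 1 ^ h * G j h M) ?_ ?_
    · simp only [zero_add, pow_one, mul_zero, add_zero] at key
      linear_combination key
    · intro M
      have h1 := S.hT j h M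
      have h2 := (hG j h M).1
      have h3 := hp j (h + M)
      push_cast at h3
      have h4 := hm j M
      rw [h3, h4] at h1
      rw [h1, h2]
      have e1 : (C ((4 * S.κ) ^ (h + 2 * (M + 1))) : V⟦X⟧) =
          C ((4 * S.κ) ^ (h + 2 * M)) * (8 * C (2 * S.κ ^ 2)) := by
        have : (8 : V⟦X⟧) = C 8 := (map_ofNat _ 8).symm
        rw [this, ← map_mul, ← map_mul]; congr 1; ring
      have e2 : (C ((4 * S.κ) ^ (h + 2 * M)) : V⟦X⟧) = C ((4 * S.κ) ^ (h + M)) *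
          C ((4 * S.κ) ^ M) := by
        rw [← map_mul]; congr 1; ring
      rw [e1, e2]
      ring
    · intro M
      exact dvd_sub ((S.hTX j h M).mul_left _) ((hG j h M).2.mul_left _)

omit [IsDomain V] in
lemma exists_e : ∃ e eI : ZMod k → V⟦X⟧, (∀ j, e j * eI j = 1) ∧
    (∀ j, C S.θ * S.H (j + 1) 1 = e j * S.H j 1) ∧ ∏ j, e j = C (S.θ ^ k) := by
  choose v hv hH using S.u1
  choose v' hv' using fun j => (hv j).exists_right_inv
  obtain ⟨θ', hθ'⟩ := S.hθ.exists_right_inv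
  have hθθ : (C S.θ : V⟦X⟧) * C θ' = 1 := by rw [← map_mul, hθ', map_one]
  refine ⟨fun j => C S.θ * v (j + 1) * v' j, fun j => C θ' * v' (j + 1) * v j, fun j => ?_,
    fun j => ?_, ?_⟩
  · have h1 := hv' j
    have h2 := hv' (j + 1)
    linear_combination (v (j + 1) * v' j * v' (j + 1) * v j) * hθθ + (v' (j + 1) * v (j + 1)) * h1 +
      h2
  · rw [hH, hH]
    have h1 := hv' j
    linear_combination (-C S.θ * X * v (j + 1)) * h1
  · rw [Finset.prod_mul_distrib, Finset.prod_mul_distrib]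
    have h1 : ∏ j, v (j + 1) = ∏ j, v j := Equiv.prod_comp (Equiv.addRight (1 : ZMod k)) v
    have h2 : (∏ j, v j) * ∏ j, v' j = 1 := by
      rw [← Finset.prod_mul_distrib]
      simp_rw [hv']
      simp
    rw [h1, Finset.prod_const, Finset.card_univ, ZMod.card, mul_assoc, h2, mul_one, map_pow]

/-- relations for the positive half -/
lemma half (h8 : (8 : V) ≠ 0) (hκ : S.κ ≠ 0) {p G : ZMod k → ℕ → V⟦X⟧} {e eI : ZMod k → V⟦X⟧}
    (hp : ∀ j (n : ℕ), S.H j (n + 1) = C ((4 * S.κ) ^ n) * S.H j 1 ^ (n + 1) * p j n)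
    (he : ∀ j, e j * eI j = 1)
    (hθe : ∀ j, C S.θ * S.H (j + 1) 1 = e j * S.H j 1)
    (hG : ∀ j h, 8 * S.T j h 0 = C ((4 * S.κ) ^ h) * S.H j 1 ^ h * G j h) :
    (∀ j, 2 * S.H j 0 + C (S.b j) + C S.κ * G j 1 = e j + C (16 * S.κ ^ 2) * eI (j - 1)) ∧
    (∀ j, (2 * S.H j 0) ^ 2 + 2 * C (S.b j) * (2 * S.H j 0) + G j 0 =
      C (8 * S.κ) * (2 * S.H (j + 1) 0 + 2 * S.H (j - 1) 0)) ∧
    ∀ j n, e j ^ (n + 2) * p (j + 1) (n + 1) =
      C ((4 * S.κ) ^ n) * ∑ a ∈ Finset.range (n + 1), p j a * p j (n - a) +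
      C ((4 * S.κ) ^ (n + 1)) * ((2 * S.H j 0 + C (S.b j)) * p j (n + 1)) +
      C ((4 * S.κ) ^ (n + 1) * S.κ) * G j (n + 2) -
      C ((4 * S.κ) ^ (2 * (n + 2))) * (eI (j - 1) ^ (n + 2) * p (j - 1) (n + 1)) := by
  have h4 : (4 : V) ≠ 0 := by
    intro h
    apply h8
    have : (8 : V) = 2 * 4 := by norm_num
    rw [this, h, mul_zero]
  have h4' : (4 : V⟦X⟧) ≠ 0 := by
    have e4 : (4 : V⟦X⟧) = C 4 := (map_ofNat _ 4).symm
    rw [e4]
    intro h
    apply h4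
    have := congrArg constantCoeff h
    simpa using this
  have hC : ∀ {a : V}, a ≠ 0 → (C a : V⟦X⟧) ≠ 0 := by
    intro a ha h
    apply ha
    have := congrArg constantCoeff h
    simpa using this
  have hA := S.H1_ne
  have hprev : ∀ j, S.H (j - 1) 1 = C S.θ * eI (j - 1) * S.H j 1 := by
    intro j
    have h1 := hθe (j - 1)
    rw [sub_add_cancel] at h1
    have h2 := he (j - 1)
    linear_combination (-S.H (j - 1) 1) * h2 - eI (j - 1) * h1
  have hθ0 : S.θ ≠ 0 := S.hθ.ne_zero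
  have e16 : (C (16 * S.κ ^ 2) : V⟦X⟧) = C ((4 * S.κ) ^ 2) := by congr 1; ring
  have e4κ : ∀ n : ℕ, (C ((4 * S.κ) ^ (n + 1)) : V⟦X⟧) = 4 * (C ((4 * S.κ) ^ n) * C S.κ) := by
    intro n
    have : (4 : V⟦X⟧) = C 4 := (map_ofNat _ 4).symm
    rw [this, ← map_mul, ← map_mul]; congr 1; ring
  -- the tails
  have hT : ∀ j n, 2 * S.T j (n + 1) 0 = C ((4 * S.κ) ^ n) * C S.κ * S.H j 1 ^ (n + 1) *
      G j (n + 1) := by
    intro j n
    apply mul_left_cancel₀ h4'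
    have := hG j (n + 1)
    rw [e4κ] at this
    linear_combination this
  refine ⟨fun j => ?_, fun j => ?_, fun j n => ?_⟩
  · have h1 := S.eqp j 0
    have h2 := S.hconv j 1
    have h3 := hT j 0
    simp only [Nat.cast_zero, zero_add, pow_one, mul_one, pow_zero, map_one, one_mul] at h1 h3
    simp only [Nat.cast_one, Finset.sum_range_succ, Finset.sum_range_zero, zero_add, Nat.cast_zero,
      Nat.sub_zero, Nat.sub_self] at h2
    rw [h2, hprev] at h1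
    apply mul_left_cancel₀ (mul_ne_zero (hC hθ0) (hA j))
    rw [e16]
    have h4 := hθe j
    have h5 : (C (S.θ ^ 2) : V⟦X⟧) = C S.θ * C S.θ := by rw [← map_mul, pow_two]
    rw [h5] at h1
    linear_combination h1 - C S.θ * h3 + C S.θ * h4
  · have h1 := S.eq0 j
    have h2 := S.hconv j 0
    have h3 := hG j 0
    simp only [pow_zero, map_one, one_mul, mul_one] at h3
    simp only [Nat.cast_zero, zero_add, Finset.sum_range_one, Nat.sub_self] at h2
    rw [h2] at h1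
    have h5 : (C (8 * S.κ) : V⟦X⟧) = 2 * C (4 * S.κ) := by
      have : (2 : V⟦X⟧) = C 2 := (map_ofNat _ 2).symm
      rw [this, ← map_mul]; congr 1; ring
    rw [h5]
    linear_combination 4 * h1 - h3
  · have h1 := S.eqp j (n + 1)
    have h2 := S.hconv j (n + 2)
    have h3 : 2 * S.T j (n + 2) 0 = C ((4 * S.κ) ^ (n + 1)) * C S.κ * S.H j 1 ^ (n + 2) *
      G j (n + 2) := hT j (n + 1)
    have hc : (((n + 1 : ℕ) : ℤ) + 1) = ((n + 2 : ℕ) : ℤ) := by push_cast; ring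
    rw [Finset.sum_range_succ, Finset.sum_range_succ'] at h2
    have hsum : ∑ a ∈ Finset.range (n + 1), S.H j ((a + 1 : ℕ) : ℤ) *
        S.H j ((n + 2 - (a + 1) : ℕ) : ℤ) =
        C ((4 * S.κ) ^ n) * S.H j 1 ^ (n + 2) *
          ∑ a ∈ Finset.range (n + 1), p j a * p j (n - a) := by
      rw [Finset.mul_sum]
      refine Finset.sum_congr rfl (fun a ha => ?_)
      rw [Finset.mem_range] at ha
      have e1 : ((n + 2 - (a + 1) : ℕ) : ℤ) = ((n - a : ℕ) : ℤ) + 1 := by omega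
      have e2 : ((a + 1 : ℕ) : ℤ) = (a : ℤ) + 1 := by push_cast; ring
      rw [e1, e2, hp, hp]
      obtain ⟨d, rfl⟩ : ∃ d, n = a + d := ⟨n - a, by omega⟩
      rw [Nat.add_sub_cancel_left]
      have e3 : (C ((4 * S.κ) ^ (a + d)) : V⟦X⟧) = C ((4 * S.κ) ^ a) * C ((4 * S.κ) ^ d) := by
        rw [← map_mul, pow_add]
      rw [e3]
      ring
    rw [hsum, Nat.sub_self, Nat.sub_zero] at h2
    simp only [Nat.cast_zero] at h2
    rw [hc, h2, ← hc, hp, hp, hp, hprev] at h1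
    rw [h3] at h1
    have h6 : C (S.θ ^ (2 * (n + 2))) * S.H (j + 1) 1 ^ (n + 2) =
        C (S.θ ^ (n + 2)) * (e j ^ (n + 2) * S.H j 1 ^ (n + 2)) := by
      rw [← mul_pow, ← hθe, mul_pow, ← map_pow, ← mul_assoc, ← map_mul]
      congr 2
      ring
    apply mul_left_cancel₀ (mul_ne_zero (mul_ne_zero (hC (pow_ne_zero (n + 2) hθ0))
      (hC (pow_ne_zero (n + 1) (mul_ne_zero h4 hκ)))) (pow_ne_zero (n + 2) (hA j)))
    simp only [map_pow, map_mul] at h1 h6 ⊢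
    linear_combination -h1 - (C 4 * C S.κ) ^ (n + 1) * p (j + 1) (n + 1) * h6

theorem exists_sys (h8 : (8 : V) ≠ 0) (hκ : S.κ ≠ 0) :
    ∃ Z : Sys V k, Z.κ = S.κ ∧ ∃ v, IsUnit v ∧ Z.Q 0 = 8 * (X ^ 2 * v) := by
  have h4 : (4 : V) ≠ 0 := by
    intro h
    apply h8
    have : (8 : V) = 2 * 4 := by norm_num
    rw [this, h, mul_zero]
  have h4κ : (4 * S.κ : V) ≠ 0 := mul_ne_zero h4 hκ
  obtain ⟨p, hp⟩ := S.exists_p h4κ
  obtain ⟨m₀, hm₀⟩ := S.rev.exists_p h4κ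
  obtain ⟨m, hmm⟩ : ∃ m : ZMod k → ℕ → V⟦X⟧, ∀ j, m₀ j = m (-j) := ⟨fun j => m₀ (-j), by simp⟩
  have hm : ∀ j (n : ℕ), S.H j (-(n + 1)) = C ((4 * S.κ) ^ n) * S.H j (-1) ^ (n + 1) * m j n := by
    intro j n
    have := hm₀ (-j) n
    rw [hmm, neg_neg] at this
    simpa [rev] using this
  have hm' : ∀ j (n : ℕ), S.rev.H j (n + 1) = C ((4 * S.rev.κ) ^ n) * S.rev.H j 1 ^ (n + 1) *
      (fun j => m (-j)) j n := by
    intro j n
    rw [hm₀ j n, hmm]
  have hp' : ∀ j (n : ℕ), S.rev.H j (-(n + 1)) = C ((4 * S.rev.κ) ^ n) *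
      S.rev.H j (-1) ^ (n + 1) * (fun j => p (-j)) j n := by
    intro j n
    have := hp (-j) n
    simpa [rev] using this
  obtain ⟨G, hG, hG'⟩ := S.exists_G h8 hp hm
  obtain ⟨K, hK, hK'⟩ := S.rev.exists_G h8 hm' hp'
  obtain ⟨e, eI, he, hθe, hprod⟩ := S.exists_e
  obtain ⟨f, fI, hf, hθf, hfprod⟩ := S.rev.exists_e
  obtain ⟨a1, a2, a3⟩ := S.half h8 hκ hp he hθe (G := fun j h => G j h 0) hG'
  obtain ⟨b1, b2, b3⟩ := S.rev.half h8 hκ hm' hf hθf (G := fun j h => K j h 0) hK'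
  choose b₂ hb₂ using S.hb
  have hθf' : ∀ j, C S.θ * S.H (j - 1) (-1) = f (-j) * S.H j (-1) := by
    intro j
    have := hθf (-j)
    have e1 : -(-j + 1) = j - 1 := by ring
    simpa [rev, e1] using this
  refine ⟨{
    κ := S.κ
    θ := S.θ
    hθ := S.hθ
    b := S.b
    b₂ := b₂
    hb := hb₂
    e := e
    e' := fun j => f (-j)
    eI := eI
    eI' := fun j => fI (-j)
    w := fun j => 2 * S.H j 0
    Q := fun j => 8 * (S.H j 1 * S.H j (-1))
    p := p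
    m := m
    F := G
    F' := fun j => K (-j)
    he := he
    he' := fun j => hf (-j)
    hprod := hprod
    hprod' := ?_
    hQ := ?_
    hp := S.p_zero hp
    hm := ?_
    hF := hG
    hF' := ?_
    h1 := a1
    h1' := ?_
    h0 := a2
    hh := a3
    hh' := ?_ }, rfl, ?_⟩
  · exact (Equiv.prod_comp (Equiv.neg (ZMod k)) f).trans hfprod
  · intro j
    have h1 := hθf' (j + 1)
    have h2 := hθe j
    rw [add_sub_cancel_right] at h1
    linear_combination (-8 * S.H (j + 1) 1) * h1 + (8 * S.H j (-1)) * h2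
  · intro j
    have := S.rev.p_zero hm' (-j)
    simpa using this
  · intro j h M
    have := hK (-j) h M
    simp only [rev, neg_neg] at this
    rw [this, mul_comm (S.H j (-1)) (S.H j 1)]
  · intro j
    have := b1 (-j)
    have e1 : -j - 1 = -(j + 1) := by ring
    simpa [rev, e1] using this
  · intro j n
    have := b3 (-j) n
    have e1 : -j - 1 = -(j + 1) := by ring
    have e2 : -j + 1 = -(j - 1) := by ring
    simp only [rev, e1, e2, neg_neg, neg_zero] at this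
    exact this
  · obtain ⟨v1, hv1, h1⟩ := S.u1 0
    obtain ⟨v2, hv2, h2⟩ := S.u2 0
    refine ⟨v1 * v2, hv1.mul hv2, ?_⟩
    simp only [h1, h2]
    ring

end Arr

end Pool.Agent.MPf2967f.Uni
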