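import Mathlib
import Pool.Agent.Lib.MP_f2967f_an.Defect

set_option autoImplicit false

/-!
# The formal series over a valuation ring, with bounds for the supports
-/

namespace Pool.Agent.MPf2967f.Uni

open IsLocalRing LaurentPolynomial

section laurent

variable {V : ValuationSubring ℂ} {k : ℕ} [NeZero k]

lemma laurent_solve (b : ZMod k → V) (hb : ∀ j, IsUnit (b j)) {ϖ θ : V} {τ : ℂ}
    (hϖ : ϖ ∈ maximalIdeal V) (hϖ0 : (ϖ : ℂ) ≠ 0) (hθ : IsUnit θ) (hτ : τ * ϖ = θ)
    (f : ZMod k → V[T;T⁻¹]) : ∃ u : ZMod k → V[T;T⁻¹], ∃ sp sm : V, Eqn b ϖ τ f u sp sm ∧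
      ∀ h, (∀ i, (f i).coeff h = 0) → ∀ j, (u j).coeff h = 0 := by
  classical
  choose U S hS hU using fun (h : ℤ) =>
    harm_solve b hb hϖ hϖ0 hθ hτ h (fun j => (f j).coeff h)
  set s : Finset ℤ := Finset.univ.biUnion (fun j => (f j).coeff.support) with hs
  refine ⟨fun j => .ofCoeff (Finsupp.onFinset s (fun h => if h ∈ s then U h j else 0)
    (fun h hh => by by_contra hn; simp [hn] at hh)), if 1 ∈ s then S 1 else 0,
    if -1 ∈ s then S (-1) else 0, ?_, ?_⟩
  · intro j h
    simp only [Finsupp.onFinset_apply]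
    by_cases hh : h ∈ s
    · simp only [if_pos hh]
      rw [hU h j]
      congr 1
      by_cases hj : j = 0
      · simp only [if_pos hj]
        by_cases h1 : h = 1
        · subst h1
          simp [hh]
        · by_cases h2 : h = -1
          · subst h2
            simp [hh]
          · rw [hS h h1 h2]
            simp [h1, h2]
      · simp [hj]
    · simp only [if_neg hh]
      have hf : (f j).coeff h = 0 := by
        by_contra hne
        apply hh
        rw [hs, Finset.mem_biUnion]
        exact ⟨j, Finset.mem_univ _, Finsupp.mem_support_iff.mpr hne⟩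
      rw [hf]
      by_cases h1 : h = 1
      · subst h1
        simp [hh]
      · by_cases h2 : h = -1
        · subst h2
          simp [hh]
        · simp [h1, h2]
  · intro h hf j
    simp only [Finsupp.onFinset_apply]
    rw [if_neg]
    rw [hs, Finset.mem_biUnion]
    rintro ⟨i, _, hi⟩
    exact Finsupp.mem_support_iff.mp hi (hf i)

lemma coeff_mul_ne {A : Type*} [CommRing A] {p q : A[T;T⁻¹]} {h : ℤ} (hne : (p * q).coeff h ≠ 0) :
    ∃ a b, a + b = h ∧ p.coeff a ≠ 0 ∧ q.coeff b ≠ 0 := by
  classical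
  rw [AddMonoidAlgebra.mul_def] at hne
  by_contra hcon
  push Not at hcon
  apply hne
  rw [Finsupp.sum, AddMonoidAlgebra.coeff_sum, Finset.sum_apply']
  refine Finset.sum_eq_zero (fun a ha => ?_)
  rw [Finsupp.sum, AddMonoidAlgebra.coeff_sum, Finset.sum_apply']
  refine Finset.sum_eq_zero (fun b hb => ?_)
  rw [AddMonoidAlgebra.coeff_single, Finsupp.single_apply]
  split_ifs with hab
  · have := hcon a b hab (Finsupp.mem_support_iff.mp ha)
    rw [this, mul_zero]
  · rfl

omit [NeZero k] in
lemma supp_sum {A : Type*} [CommRing A] {n : ℕ} {w : ℕ → ZMod k → A[T;T⁻¹]}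
    (hw : ∀ m ≤ n, ∀ j h, (w m j).coeff h ≠ 0 → h.natAbs ≤ m) (j : ZMod k) (h : ℤ)
    (hne : (∑ p ∈ Finset.HasAntidiagonal.antidiagonal n, w p.1 j * w p.2 j).coeff h ≠ 0) :
    h.natAbs ≤ n := by
  rw [AddMonoidAlgebra.coeff_sum, Finset.sum_apply'] at hne
  obtain ⟨p, hp, hp'⟩ := Finset.exists_ne_zero_of_sum_ne_zero hne
  rw [Finset.HasAntidiagonal.mem_antidiagonal] at hp
  obtain ⟨a, b, hab, ha, hb⟩ := coeff_mul_ne hp'
  have h1 := hw p.1 (by omega) j a ha
  have h2 := hw p.2 (by omega) j b hb
  omega

open Finset in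
theorem exists_series (b : ZMod k → V) (hb : ∀ j, IsUnit (b j)) {ϖ θ : V} {τ : ℂ}
    (hϖ : ϖ ∈ maximalIdeal V) (hϖ0 : (ϖ : ℂ) ≠ 0) (hθ : IsUnit θ) (hτ : τ * ϖ = θ)
    (α β : ZMod k → V)
    (hα : ∀ j, θ ^ 2 * α (j + 1) + ϖ ^ 2 * α (j - 1) = θ * (b j * α j))
    (hβ : ∀ j, θ ^ 2 * β (j - 1) + ϖ ^ 2 * β (j + 1) = θ * (b j * β j)) :
    ∃ (w : ℕ → ZMod k → V[T;T⁻¹]) (sp sm : ℕ → V), (∀ j, w 0 j = 0) ∧
      (∀ j, w 1 j = C (α j) * T 1 + C (β j) * T (-1)) ∧ sp 0 = 0 ∧ sm 0 = 0 ∧
      (∀ n, Eqn b ϖ τ (fun j => ∑ p ∈ antidiagonal n, w p.1 j * w p.2 j) (w n) (sp n) (sm n)) ∧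
      ∀ n j h, (w n j).coeff h ≠ 0 → h.natAbs ≤ n := by
  classical
  set w₁ : ZMod k → V[T;T⁻¹] := fun j => C (α j) * T 1 + C (β j) * T (-1) with hw₁
  have cC : ∀ (x y : V) (h : ℤ), (C x * T 1 + C y * T (-1) : V[T;T⁻¹]).coeff h =
      (if h = 1 then x else 0) + (if h = -1 then y else 0) := by
    intro x y h
    rw [← single_eq_C_mul_T, ← single_eq_C_mul_T]
    simp only [AddMonoidAlgebra.coeff_add, AddMonoidAlgebra.coeff_single,
      Finsupp.add_apply, Finsupp.single_apply]
    congr 1
    · by_cases h1 : h = 1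
      · simp [h1]
      · simp [h1, Ne.symm h1]
    · by_cases h1 : h = -1
      · simp [h1]
      · simp [h1, Ne.symm h1]
  have hex : ∃ a : ℕ → (ZMod k → V[T;T⁻¹]) × V × V, ∀ n,
      (n = 0 → a 0 = (0, 0, 0)) ∧ (n = 1 → a 1 = (w₁, 0, 0)) ∧
      (2 ≤ n → Eqn b ϖ τ (fun j => ∑ p ∈ antidiagonal n, (a p.1).1 j * (a p.2).1 j) (a n).1
        (a n).2.1 (a n).2.2) ∧ (∀ j h, ((a n).1 j).coeff h ≠ 0 → h.natAbs ≤ n) := by
    refine exists_seq (0, 0, 0) (fun n a => (n = 0 → a 0 = (0, 0, 0)) ∧ (n = 1 → a 1 = (w₁, 0, 0)) ∧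
      (2 ≤ n → Eqn b ϖ τ (fun j => ∑ p ∈ antidiagonal n, (a p.1).1 j * (a p.2).1 j) (a n).1
        (a n).2.1 (a n).2.2) ∧ (∀ j h, ((a n).1 j).coeff h ≠ 0 → h.natAbs ≤ n)) ?_ ?_
    · rintro n w w' hww' ⟨h0, h1, h2, h3⟩
      refine ⟨fun h => ?_, fun h => ?_, fun h => ?_, ?_⟩
      · rw [← hww' 0 (by omega)]; exact h0 h
      · rw [← hww' 1 (by omega)]; exact h1 h
      · have := h2 h
        rw [← hww' n le_rfl]
        have e : (fun j => ∑ p ∈ antidiagonal n, (w' p.1).1 j * (w' p.2).1 j) =
            (fun j => ∑ p ∈ antidiagonal n, (w p.1).1 j * (w p.2).1 j) := by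
          funext j
          refine sum_congr rfl (fun p hp => ?_)
          rw [HasAntidiagonal.mem_antidiagonal] at hp
          rw [hww' p.1 (by omega), hww' p.2 (by omega)]
        rw [e]
        exact this
      · rw [← hww' n le_rfl]; exact h3
    · intro n a ha
      rcases n with _ | n
      · exact ⟨(0, 0, 0), fun _ => by simp, fun h => by omega, fun h => by omega, by simp⟩
      · rcases n with _ | n
        · refine ⟨(w₁, 0, 0), fun h => by omega, fun _ => by simp, fun h => by omega, ?_⟩
          intro j h hh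
          simp only [zero_add, Function.update_self, hw₁, cC] at hh
          by_cases h1 : h = 1
          · rw [h1]; rfl
          · by_cases h2 : h = -1
            · rw [h2]; rfl
            · simp [h1, h2] at hh
        · obtain ⟨u, sp, sm, hu, hu'⟩ := laurent_solve b hb hϖ hϖ0 hθ hτ
            (fun j => ∑ p ∈ antidiagonal (n + 1 + 1), (Function.update a (n + 1 + 1) 0 p.1).1 j *
              (Function.update a (n + 1 + 1) 0 p.2).1 j)
          refine ⟨(u, sp, sm), fun h => by omega, fun h => by omega, fun _ => ?_, ?_⟩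
          · have e : (fun j => ∑ p ∈ antidiagonal (n + 1 + 1),
                (Function.update a (n + 1 + 1) (u, sp, sm) p.1).1 j *
                (Function.update a (n + 1 + 1) (u, sp, sm) p.2).1 j) =
                (fun j => ∑ p ∈ antidiagonal (n + 1 + 1), (Function.update a (n + 1 + 1) 0 p.1).1 j *
                (Function.update a (n + 1 + 1) 0 p.2).1 j) := by
              funext j
              refine sum_congr rfl (fun p hp => ?_)
              rw [HasAntidiagonal.mem_antidiagonal] at hp
              have ha0 : a 0 = (0, 0, 0) := (ha 0 (by omega)).1 rfl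
              have key : ∀ x, Function.update a (n + 1 + 1) x 0 = (0, 0, 0) := fun x => by
                rw [Function.update_of_ne (by omega), ha0]
              by_cases h1 : p.1 = n + 1 + 1
              · have h2 : p.2 = 0 := by omega
                rw [h2, key, key]
                simp
              · by_cases h2 : p.2 = n + 1 + 1
                · have h3 : p.1 = 0 := by omega
                  rw [h3, key, key]
                  simp
                · rw [Function.update_of_ne h1, Function.update_of_ne h1, Function.update_of_ne h2,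
                    Function.update_of_ne h2]
            rw [e]
            simpa using hu
          · intro j h hh
            rw [Function.update_self] at hh
            simp only at hh
            by_contra hcon
            refine hh (hu' h (fun i => ?_) j)
            by_contra hne
            refine hcon (supp_sum
              (w := fun m j => (Function.update a (n + 1 + 1) 0 m).1 j) ?_ i h hne)
            intro m hm j' h' hh'
            by_cases hmn : m = n + 1 + 1
            · subst hmn
              rw [Function.update_self] at hh'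
              simp at hh'
            · rw [Function.update_of_ne hmn] at hh'
              exact (ha m (by omega)).2.2.2 j' h' hh'
  obtain ⟨a, ha⟩ := hex
  · refine ⟨fun n => (a n).1, fun n => (a n).2.1, fun n => (a n).2.2, ?_, ?_, ?_, ?_, ?_,
      fun n => (ha n).2.2.2⟩
    · intro j; simp only; rw [(ha 0).1 rfl]; rfl
    · intro j; simp only; rw [(ha 1).2.1 rfl]
    · simp only; rw [(ha 0).1 rfl]
    · simp only; rw [(ha 0).1 rfl]
    · intro n
      rcases n with _ | n
      · intro j h
        simp only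
        rw [Finset.Nat.antidiagonal_zero, sum_singleton]
        simp only
        rw [(ha 0).1 rfl]
        simp
      · rcases n with _ | n
        · intro j h
          have e0 := (ha 0).1 rfl
          have e1 := (ha 1).2.1 rfl
          have hanti : antidiagonal 1 = {((0 : ℕ), (1 : ℕ)), (1, 0)} := by decide
          simp only [zero_add]
          rw [hanti, sum_pair (by decide)]
          simp only
          rw [e0, e1]
          have hθ0 : (θ : ℂ) ≠ 0 := by
            intro h0
            have : θ = 0 := Subtype.ext h0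
            rw [this] at hθ
            exact not_isUnit_zero hθ
          have hτ0 : τ ≠ 0 := by
            rintro rfl
            rw [zero_mul] at hτ
            exact hθ0 hτ.symm
          have ea := congrArg (fun x : V => (x : ℂ)) (hα j)
          have eb := congrArg (fun x : V => (x : ℂ)) (hβ j)
          push_cast at ea eb
          rw [← hτ] at ea eb
          simp only [hw₁, cC]
          have ea' : (b j : ℂ) * α j = ϖ * (τ * α (j + 1) + τ⁻¹ * α (j - 1)) := by
            field_simp
            apply mul_left_cancel₀ hϖ0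
            linear_combination -ea
          have eb' : (b j : ℂ) * β j = ϖ * (τ⁻¹ * β (j + 1) + τ * β (j - 1)) := by
            field_simp
            apply mul_left_cancel₀ hϖ0
            linear_combination -eb
          by_cases h1 : h = 1
          · subst h1
            simp [ea']
          · by_cases h2 : h = -1
            · subst h2
              simp [eb']
            · simp [h1, h2]
        · exact (ha (n + 1 + 1)).2.2.1 (by omega)

end laurent

/-- A setup with bounds for the supports. -/
theorem exists_setup (V : ValuationSubring ℂ) (k : ℕ) [NeZero k] (c : ℂ) (z : ZMod k → ℂ)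
    (hz : ∀ j, z (j + 1) + z (j - 1) = z j ^ 2 + c) (hc : 4 * c ∉ V) :
    ∃ S : Setup V k c z, ∀ n j h, (S.w n j).coeff h ≠ 0 → h.natAbs ≤ n := by
  obtain ⟨R, hR0, hR, ϖ, hϖ, hϖR⟩ := exists_small V c hc
  obtain ⟨b, hb, hbu, hbb⟩ := exists_b V c z hz R hR0 hR ϖ hϖ hϖR
  obtain ⟨θ, hθ, α, β, hαu, hβu, hα, hβ⟩ := exists_eigen V b hbu (ϖ ^ 2)
    (Ideal.pow_mem_of_mem _ hϖ 2 (by norm_num))
  have hϖ0 : (ϖ : ℂ) ≠ 0 := left_ne_zero_of_mul_eq_one hϖR
  have hθ0 : (θ : ℂ) ≠ 0 := by
    intro h0
    have : θ = 0 := Subtype.ext h0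
    rw [this] at hθ
    exact not_isUnit_zero hθ
  set τ : ℂˣ := Units.mk0 ((θ : ℂ) / ϖ) (div_ne_zero hθ0 hϖ0) with hτdef
  have hτ : (τ : ℂ) * ϖ = θ := by
    rw [hτdef, Units.val_mk0]
    field_simp
  obtain ⟨w, sp, sm, hw0, hw1, hsp0, hsm0, hE, hsupp⟩ :=
    exists_series b hbu hϖ hϖ0 hθ hτ α β hα hβ
  exact ⟨⟨hz, R, hR0, hR, ϖ, θ, hϖ, hϖR, hθ, τ, hτ, b, hb, hbu, hbb, α, β, hαu, hβu, hα, hβ, w, sp, sm,
    hw0, hw1, hsp0, hsm0, hE⟩, hsupp⟩

end Pool.Agent.MPf2967f.Uni
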