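import Mathlib
import Pool.Agent.Lib.MP_f2967f_an.Reduce
import Pool.Agent.Lib.MP_f2967f_an.Uni.Series
import Pool.Agent.Lib.MP_f2967f_an.Uni.Arr

set_option autoImplicit false

/-!
# The harmonics of the formal solution over a valuation ring
-/

namespace Pool.Agent.MPf2967f.Uni

open PowerSeries LaurentPolynomial

section conv

variable {A : Type*} [CommRing A]

lemma laurent_coeff_mul (x y : A[T;T⁻¹]) (h : ℤ) (s : Finset ℤ)
    (hs : ∀ a, x.coeff a ≠ 0 → a ∈ s) :
    (x * y).coeff h = ∑ a ∈ s, x.coeff a * y.coeff (h - a) := by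
  classical
  rw [AddMonoidAlgebra.coeff_mul]
  have h1 : ∀ a r, (y.coeff.sum fun m₂ r₂ => if a + m₂ = h then r * r₂ else 0) =
      r * y.coeff (h - a) := by
    intro a r
    rw [Finsupp.sum]
    by_cases h0 : y.coeff (h - a) = 0
    · rw [h0, mul_zero]
      refine Finset.sum_eq_zero (fun m hm => ?_)
      split_ifs with hc
      · have : m = h - a := by omega
        rw [this, h0, mul_zero]
      · rfl
    · rw [Finset.sum_eq_single (h - a)]
      · rw [if_pos (by ring)]
      · intro m _ hm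
        rw [if_neg (by omega)]
      · intro hn
        exact absurd (Finsupp.mem_support_iff.mpr h0) hn
  simp only [h1]
  rw [Finsupp.sum]
  refine Finset.sum_subset (fun a ha => hs a (Finsupp.mem_support_iff.mp ha)) (fun a _ ha => ?_)
  rw [Finsupp.notMem_support_iff.mp ha, zero_mul]

lemma laurent_split (x y : A[T;T⁻¹]) (h n : ℕ) (hx : ∀ a : ℤ, x.coeff a ≠ 0 → a.natAbs ≤ n) :
    (x * y).coeff (h : ℤ) = ∑ a ∈ Finset.range (h + 1), x.coeff a * y.coeff ((h - a : ℕ) : ℤ) +
      (∑ m ∈ Finset.Icc 1 n, x.coeff (h + m : ℤ) * y.coeff (-m : ℤ) +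
      ∑ m ∈ Finset.Icc 1 n, x.coeff (-m : ℤ) * y.coeff (h + m : ℤ)) := by
  classical
  set s1 : Finset ℤ := (Finset.range (h + 1)).image (fun a : ℕ => (a : ℤ)) with hs1
  set s2 : Finset ℤ := (Finset.Icc 1 n).image (fun a : ℕ => (h + a : ℤ)) with hs2
  set s3 : Finset ℤ := (Finset.Icc 1 n).image (fun a : ℕ => (-a : ℤ)) with hs3
  have hd23 : Disjoint s2 s3 := by
    rw [Finset.disjoint_left]
    intro a ha hb
    simp only [hs2, hs3, Finset.mem_image, Finset.mem_Icc] at ha hb
    obtain ⟨u, hu, rfl⟩ := ha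
    obtain ⟨v, hv, hv'⟩ := hb
    omega
  have hd1 : Disjoint s1 (s2 ∪ s3) := by
    rw [Finset.disjoint_left]
    intro a ha hb
    simp only [hs1, hs2, hs3, Finset.mem_image, Finset.mem_Icc, Finset.mem_union,
      Finset.mem_range] at ha hb
    obtain ⟨u, hu, rfl⟩ := ha
    rcases hb with ⟨v, hv, hv'⟩ | ⟨v, hv, hv'⟩ <;> omega
  rw [laurent_coeff_mul x y h (s1 ∪ (s2 ∪ s3)), Finset.sum_union hd1, Finset.sum_union hd23]
  · congr 1
    · rw [hs1, Finset.sum_image (fun a _ b _ hab => by exact_mod_cast hab)]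
      refine Finset.sum_congr rfl (fun a ha => ?_)
      rw [Finset.mem_range] at ha
      congr 2
      omega
    · congr 1
      · rw [hs2, Finset.sum_image (fun a _ b _ hab => by simpa using hab)]
        refine Finset.sum_congr rfl (fun a ha => ?_)
        congr 2
        omega
      · rw [hs3, Finset.sum_image (fun a _ b _ hab => by simpa using hab)]
        refine Finset.sum_congr rfl (fun a ha => ?_)
        congr 2
        omega
  · intro a ha
    have h1 := hx a ha
    simp only [hs1, hs2, hs3, Finset.mem_image, Finset.mem_Icc, Finset.mem_union,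
      Finset.mem_range]
    rcases lt_trichotomy a 0 with h2 | h2 | h2
    · right; right
      exact ⟨a.natAbs, by omega, by omega⟩
    · left
      exact ⟨0, by omega, by omega⟩
    · by_cases h3 : a ≤ h
      · left
        exact ⟨a.natAbs, by omega, by omega⟩
      · right; left
        exact ⟨(a - h).natAbs, by omega, by omega⟩

/-- a harmonic of a series of Laurent polynomials -/
noncomputable def hm (u : ℕ → A[T;T⁻¹]) (h : ℤ) : A⟦X⟧ := PowerSeries.mk (fun n => (u n).coeff h)

/-- a harmonic of its square -/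
noncomputable def hm2 (u : ℕ → A[T;T⁻¹]) (h : ℤ) : A⟦X⟧ :=
  PowerSeries.mk (fun n => (∑ p ∈ Finset.HasAntidiagonal.antidiagonal n, u p.1 * u p.2).coeff h)

/-- the tails of the harmonics of the square -/
noncomputable def tl (u : ℕ → A[T;T⁻¹]) (h M : ℕ) : A⟦X⟧ :=
  PowerSeries.mk (fun n => ∑ x ∈ Finset.HasAntidiagonal.antidiagonal n,
    ∑ m ∈ Finset.Icc (M + 1) n, (u x.1).coeff (h + m : ℤ) * (u x.2).coeff (-m : ℤ))

variable (u : ℕ → A[T;T⁻¹]) (hu : ∀ n h, (u n).coeff h ≠ 0 → h.natAbs ≤ n)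

include hu

lemma tl_succ (h M : ℕ) : tl u h M = hm u (h + M + 1) * hm u (-(M + 1)) + tl u h (M + 1) := by
  ext n
  rw [map_add, PowerSeries.coeff_mul]
  simp only [tl, hm, PowerSeries.coeff_mk]
  rw [← Finset.sum_add_distrib]
  refine Finset.sum_congr rfl (fun x hx => ?_)
  rw [Finset.HasAntidiagonal.mem_antidiagonal] at hx
  rcases Nat.lt_or_ge n (M + 1) with hn | hn
  · rw [Finset.Icc_eq_empty (by omega), Finset.Icc_eq_empty (by omega), Finset.sum_empty, add_zero]
    have : (u x.2).coeff (-((M : ℤ) + 1)) = 0 := by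
      by_contra hne
      have := hu _ _ hne
      omega
    rw [this, mul_zero]
  · rw [← Finset.insert_Icc_succ_left_eq_Icc hn, Finset.sum_insert (by simp)]
    push_cast
    rw [add_assoc (h : ℤ) M 1]
    rfl

omit hu in
lemma X_dvd_tl (h M : ℕ) : X ^ M ∣ tl u h M := by
  rw [X_pow_dvd_iff]
  intro n hn
  simp only [tl, PowerSeries.coeff_mk]
  refine Finset.sum_eq_zero (fun x _ => ?_)
  rw [Finset.Icc_eq_empty (by omega), Finset.sum_empty]

lemma X_dvd_hm (h : ℤ) : X ^ h.natAbs ∣ hm u h := by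
  rw [X_pow_dvd_iff]
  intro n hn
  simp only [hm, PowerSeries.coeff_mk]
  by_contra hne
  have := hu _ _ hne
  omega

lemma hm2_eq (h : ℕ) : hm2 u h = ∑ a ∈ Finset.range (h + 1), hm u a * hm u ((h - a : ℕ) : ℤ) +
    2 * tl u h 0 := by
  ext n
  rw [map_add, map_sum, two_mul, map_add]
  simp only [PowerSeries.coeff_mul, tl, hm, hm2, PowerSeries.coeff_mk, zero_add]
  rw [AddMonoidAlgebra.coeff_sum, Finset.sum_apply']
  have h1 : ∀ x ∈ Finset.HasAntidiagonal.antidiagonal n, (u x.1 * u x.2).coeff (h : ℤ) =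
      ∑ a ∈ Finset.range (h + 1), (u x.1).coeff a * (u x.2).coeff ((h - a : ℕ) : ℤ) +
      (∑ m ∈ Finset.Icc 1 n, (u x.1).coeff (h + m : ℤ) * (u x.2).coeff (-m : ℤ) +
      ∑ m ∈ Finset.Icc 1 n, (u x.1).coeff (-m : ℤ) * (u x.2).coeff (h + m : ℤ)) := by
    intro x hx
    rw [Finset.HasAntidiagonal.mem_antidiagonal] at hx
    refine laurent_split _ _ h n (fun a ha => ?_)
    have := hu _ _ ha
    omega
  rw [Finset.sum_congr rfl h1, Finset.sum_add_distrib, Finset.sum_add_distrib, Finset.sum_comm]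
  congr 2
  rw [← Finset.Nat.sum_antidiagonal_swap]
  refine Finset.sum_congr rfl (fun x _ => Finset.sum_congr rfl (fun m _ => ?_))
  rw [Prod.fst_swap, Prod.snd_swap, mul_comm]

omit hu in
lemma hm_invert (h : ℤ) : hm (fun n => invert (u n)) h = hm u (-h) := by
  ext n
  simp [hm]

omit hu in
lemma hm2_invert (h : ℤ) : hm2 (fun n => invert (u n)) h = hm2 u (-h) := by
  ext n
  simp only [hm2, PowerSeries.coeff_mk]
  rw [← invert_apply, map_sum]
  simp only [map_mul]

end conv

section build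

open IsLocalRing

variable {V : ValuationSubring ℂ} {k : ℕ} [NeZero k] {c : ℂ} {z : ZMod k → ℂ}

theorem exists_arr (S : Setup V k c z) (hsupp : ∀ n j h, (S.w n j).coeff h ≠ 0 → h.natAbs ≤ n)
    (hdef : ∀ n, S.sp n = 0 ∧ S.sm n = 0) (κ : V) (hκ : S.ϖ = 4 * κ) :
    ∃ Z : Arr V k, Z.κ = κ := by
  have hτ0 : (S.τ : ℂ) ≠ 0 := S.τ.ne_zero
  have hEq : ∀ n j (h : ℤ), (((∑ p ∈ Finset.HasAntidiagonal.antidiagonal n,
      S.w p.1 j * S.w p.2 j).coeff h : V) : ℂ) +
      S.b j * ((S.w n j).coeff h : V) = S.ϖ * ((S.τ : ℂ) ^ h * ((S.w n (j + 1)).coeff h : V) +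
        (S.τ : ℂ) ^ (-h) * ((S.w n (j - 1)).coeff h : V)) := by
    intro n j h
    have := S.hE n j h
    rw [(hdef n).1, (hdef n).2] at this
    simpa using this
  set u : ZMod k → ℕ → V[T;T⁻¹] := fun j n => S.w n j with hu
  set u' : ZMod k → ℕ → V[T;T⁻¹] := fun j n => invert (S.w n j) with hu'
  have us : ∀ j n h, (u j n).coeff h ≠ 0 → h.natAbs ≤ n := fun j n h hh => hsupp n j h hh
  have us' : ∀ j n h, (u' j n).coeff h ≠ 0 → h.natAbs ≤ n := by
    intro j n h hh
    simp only [hu', invert_apply] at hh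
    have := hsupp n j _ hh
    omega
  have cC : ∀ (x y : V), (LaurentPolynomial.C x * T 1 + LaurentPolynomial.C y * T (-1) :
      V[T;T⁻¹]).coeff 1 = x ∧ (LaurentPolynomial.C x * T 1 + LaurentPolynomial.C y * T (-1) :
      V[T;T⁻¹]).coeff (-1) = y := by
    intro x y
    rw [← single_eq_C_mul_T, ← single_eq_C_mul_T]
    simp [AddMonoidAlgebra.coeff_add, AddMonoidAlgebra.coeff_single, -single_eq_C_mul_T]
  refine ⟨{
    κ := κ
    θ := S.θ
    hθ := S.hθ
    b := S.b
    hb := fun j => ⟨8 * (S.b (j + 1) + S.b (j - 1)), by rw [S.hbb, hκ]; ring⟩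
    H := fun j h => hm (u j) h
    H2 := fun j h => hm2 (u j) h
    T := fun j h M => tl (u j) h M
    T' := fun j h M => tl (u' j) h M
    hX := fun j n => by simpa using X_dvd_hm (u j) (us j) n
    hX' := fun j n => by simpa using X_dvd_hm (u j) (us j) (-n)
    u1 := ?_
    u2 := ?_
    hT := fun j h M => tl_succ (u j) (us j) h M
    hTX := fun j h M => X_dvd_tl (u j) h M
    hT' := ?_
    hTX' := fun j h M => X_dvd_tl (u' j) h M
    hconv := fun j h => hm2_eq (u j) (us j) h
    hconv' := ?_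
    eq0 := ?_
    eqp := ?_
    eqm := ?_ }, rfl⟩
  · intro j
    refine ⟨PowerSeries.mk (fun n => (S.w (n + 1) j).coeff 1), ?_, ?_⟩
    · rw [isUnit_iff_constantCoeff, ← coeff_zero_eq_constantCoeff_apply, PowerSeries.coeff_mk,
        zero_add, S.hw1, (cC _ _).1]
      exact S.hαu j
    · ext n
      rcases n with _ | n
      · simp [hm, hu, S.hw0]
      · rw [coeff_succ_X_mul]; simp [hm, hu]
  · intro j
    refine ⟨PowerSeries.mk (fun n => (S.w (n + 1) j).coeff (-1)), ?_, ?_⟩
    · rw [isUnit_iff_constantCoeff, ← coeff_zero_eq_constantCoeff_apply, PowerSeries.coeff_mk,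
        zero_add, S.hw1, (cC _ _).2]
      exact S.hβu j
    · ext n
      rcases n with _ | n
      · simp [hm, hu, S.hw0]
      · rw [coeff_succ_X_mul]; simp [hm, hu]
  · intro j h M
    have := tl_succ (u' j) (us' j) h M
    rw [hu', hm_invert, hm_invert, neg_neg] at this
    exact this
  · intro j h
    have := hm2_eq (u' j) (us' j) h
    rw [hu', hm2_invert] at this
    simp only [hm_invert] at this
    exact this
  · intro j
    refine PowerSeries.ext fun n => ?_
    rw [map_add, PowerSeries.coeff_C_mul, PowerSeries.coeff_C_mul, map_add]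
    simp only [hm, hm2, PowerSeries.coeff_mk, hu]
    apply Subtype.ext
    rw [← hκ]
    have := hEq n j 0
    simpa using this
  · intro j m
    refine PowerSeries.ext fun n => ?_
    simp only [← mul_assoc, ← map_mul, map_add, PowerSeries.coeff_C_mul, hm, hm2,
      PowerSeries.coeff_mk, hu, ← hκ]
    have h1 := clear_eq' hτ0 S.hτ m _ _ _ _ _ (hEq n j ((m + 1 : ℕ) : ℤ))
    push_cast at h1
    rw [← h1]
    ring
  · intro j m
    refine PowerSeries.ext fun n => ?_
    simp only [← mul_assoc, ← map_mul, map_add, PowerSeries.coeff_C_mul, hm, hm2,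
      PowerSeries.coeff_mk, hu, ← hκ]
    have h0 := hEq n j (-((m + 1 : ℕ) : ℤ))
    rw [neg_neg, add_comm ((S.τ : ℂ) ^ (-((m + 1 : ℕ) : ℤ)) * _)] at h0
    have h1 := clear_eq' hτ0 S.hτ m _ _ _ _ _ h0
    push_cast at h1
    rw [← h1]
    ring

end build

end Pool.Agent.MPf2967f.Uni
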