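import Mathlib
import Pool.Agent.Lib.MP_f2967f_an.Main
import Pool.Agent.Lib.MP_f2967f_an.Uni.Build
import Pool.Agent.Lib.MP_f2967f_an.Fin.Bound

set_option autoImplicit false

/-!
# The uniform arithmetic restriction
-/

namespace Pool.Agent.MPf2967f.Uni

open IsLocalRing Filter Topology Polynomial

section arch

variable {V : ValuationSubring ℂ}

/-- An element of the maximal ideal whose inverse is algebraic is not infinitesimal with respect
to a natural number. -/
lemma arch {l : V} (hl : l ∈ maximalIdeal V) {x : ℂ} (hx : IsAlgebraic ℤ x) (hlx : (l : ℂ) * x = 1)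
    (d : ℕ) (h : ∀ n : ℕ, l ^ n ∣ 8 ^ d) : False := by
  have hl0 : l ≠ 0 := by
    rintro rfl
    simp at hlx
  have hnu : ¬ IsUnit l := hl
  by_cases h2 : IsUnit (2 : V)
  · have h8 : IsUnit ((8 : V) ^ d) := by
      have : (8 : V) = 2 ^ 3 := by norm_num
      rw [this]
      exact (h2.pow 3).pow d
    exact hnu (isUnit_of_dvd_unit (by simpa using h 1) h8)
  have h2m : (2 : V) ∈ maximalIdeal V := h2
  -- the number two is infinitely divisible
  have hdiv : ∀ m : ℕ, l ^ m ∣ 2 := by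
    intro m
    rcases ValuationRing.dvd_total (2 : V) (l ^ m) with h3 | h3
    · exfalso
      obtain ⟨t, ht⟩ := h3
      have h4 : (8 : V) ^ d ∣ l ^ (m * (3 * d)) := by
        rw [pow_mul, ht, mul_pow]
        have : (8 : V) ^ d = 2 ^ (3 * d) := by rw [pow_mul]; norm_num
        rw [this]
        exact dvd_mul_right _ _
      have h5 := (h (m * (3 * d) + 1)).trans h4
      rw [pow_succ] at h5
      have h6 : l ∣ 1 := by
        have h7 : l ^ (m * (3 * d)) * l ∣ l ^ (m * (3 * d)) * 1 := by rwa [mul_one]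
        exact (mul_dvd_mul_iff_left (pow_ne_zero _ hl0)).mp h7
      exact hnu (isUnit_of_dvd_one h6)
    · exact h3
  have hodd : ∀ a : ℤ, ¬ 2 ∣ a → IsUnit (a : V) := by
    intro a ha
    by_contra hcon
    have h3 : (a : V) ∈ maximalIdeal V := hcon
    obtain ⟨b, hb⟩ := Int.odd_iff.mpr (Int.two_dvd_ne_zero.mp ha)
    have h4 : (a : V) - 2 * (b : V) ∈ maximalIdeal V :=
      Ideal.sub_mem _ h3 (Ideal.mul_mem_right _ _ h2m)
    have h5 : (a : V) - 2 * (b : V) = 1 := by rw [hb]; push_cast; ring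
    rw [h5] at h4
    exact h4 isUnit_one
  obtain ⟨f, hf0, hf⟩ := hx
  set g := f.primPart with hg
  have hgx : aeval x g = 0 := aeval_primPart_eq_zero hf0 hf
  have hgp : g.IsPrimitive := f.isPrimitive_primPart
  obtain ⟨i₁, hi₁⟩ : ∃ i, ¬ (2 : ℤ) ∣ g.coeff i := by
    by_contra hcon
    push Not at hcon
    have h3 := hgp 2 ((C_dvd_iff_dvd_coeff _ _).mpr hcon)
    rw [Int.isUnit_iff] at h3
    omega
  set N := g.natDegree with hN
  have hi₁N : i₁ ≤ N := by
    by_contra hcon
    push Not at hcon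
    apply hi₁
    rw [coeff_eq_zero_of_natDegree_lt hcon]
    exact dvd_zero _
  classical
  set i₀ := Nat.findGreatest (fun i => ¬ (2 : ℤ) ∣ g.coeff i) N with hi₀
  have h6 : ¬ (2 : ℤ) ∣ g.coeff i₀ :=
    Nat.findGreatest_spec (P := fun i => ¬ (2 : ℤ) ∣ g.coeff i) hi₁N hi₁
  have hi₀N : i₀ ≤ N := Nat.findGreatest_le N
  have h7 : ∀ i, i₀ < i → i ≤ N → (2 : ℤ) ∣ g.coeff i := by
    intro i h1 h3
    have := Nat.findGreatest_is_greatest (P := fun i => ¬ (2 : ℤ) ∣ g.coeff i) h1 h3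
    simpa using this
  have hsum : ∑ i ∈ Finset.range (N + 1), (g.coeff i : V) * l ^ (N - i) = 0 := by
    apply Subtype.ext
    have h8 : ((∑ i ∈ Finset.range (N + 1), (g.coeff i : V) * l ^ (N - i) : V) : ℂ) =
        ∑ i ∈ Finset.range (N + 1), (g.coeff i : ℂ) * (l : ℂ) ^ (N - i) := by
      push_cast
      rfl
    rw [h8]
    rw [aeval_eq_sum_range] at hgx
    have h9 := congrArg (fun y => (l : ℂ) ^ N * y) hgx
    simp only [mul_zero, Finset.mul_sum] at h9
    rw [show ((0 : V) : ℂ) = 0 from rfl, ← h9]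
    refine Finset.sum_congr rfl (fun i hi => ?_)
    rw [Finset.mem_range] at hi
    have h10 : (l : ℂ) ^ N = (l : ℂ) ^ (N - i) * (l : ℂ) ^ i := by
      rw [← pow_add]; congr 1; omega
    have h11 : (l : ℂ) ^ i * x ^ i = 1 := by rw [← mul_pow, hlx, one_pow]
    rw [h10, zsmul_eq_mul]
    linear_combination (-(g.coeff i : ℂ) * (l : ℂ) ^ (N - i)) * h11
  have h12 : l ^ (N - i₀ + 1) ∣ (g.coeff i₀ : V) * l ^ (N - i₀) := by
    have h13 := Finset.sum_erase_add (Finset.range (N + 1)) (fun i => (g.coeff i : V) * l ^ (N - i))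
      (Finset.mem_range.mpr (Nat.lt_succ_of_le hi₀N))
    rw [hsum] at h13
    have h14 : l ^ (N - i₀ + 1) ∣ ∑ i ∈ (Finset.range (N + 1)).erase i₀,
        (g.coeff i : V) * l ^ (N - i) := by
      refine Finset.dvd_sum (fun i hi => ?_)
      rw [Finset.mem_erase, Finset.mem_range] at hi
      rcases Nat.lt_or_gt_of_ne hi.1 with h15 | h15
      · exact (pow_dvd_pow l (by omega)).mul_left _
      · obtain ⟨b, hb⟩ := h7 i h15 (by omega)
        rw [hb]
        push_cast
        exact ((hdiv _).mul_right _).mul_right _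
    have h16 : (g.coeff i₀ : V) * l ^ (N - i₀) = -∑ i ∈ (Finset.range (N + 1)).erase i₀,
        (g.coeff i : V) * l ^ (N - i) := by
      linear_combination h13
    rw [h16]
    exact h14.neg_right
  rw [(hodd _ h6).dvd_mul_left, pow_succ] at h12
  have h17 : l ∣ 1 := by
    have h18 : l ^ (N - i₀) * l ∣ l ^ (N - i₀) * 1 := by rwa [mul_one]
    exact (mul_dvd_mul_iff_left (pow_ne_zero _ hl0)).mp h18
  exact hnu (isUnit_of_dvd_one h17)

end arch

variable {k : ℕ} [NeZero k] {c : ℂ} {z : ZMod k → ℂ} {N : ℕ → ℕ}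

/-- the uniform bound in every valuation ring -/
theorem mem_uniform (hz : ∀ j, z (j + 1) + z (j - 1) = z j ^ 2 + c)
    (hN : Tendsto N atTop atTop) (hAI : AI c k z N) (hc : IsAlgebraic ℤ c)
    (V : ValuationSubring ℂ) : 64 * c ∈ V := by
  by_contra h64
  have h4 : 4 * c ∉ V := by
    intro h
    apply h64
    have : 64 * c = ((16 : ℕ) : ℂ) * (4 * c) := by push_cast; ring
    rw [this]
    exact V.mul_mem _ _ (natCast_mem V _) h
  obtain ⟨S, hsupp⟩ := exists_setup V k c z hz h4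
  have hdef := S.defect_zero hN hAI
  have hR := S.hR
  have hR0 := S.hR0
  have h8R : (8 * S.R) ∉ V := by
    intro h
    apply h64
    have : 64 * c = -((8 * S.R) * (8 * S.R)) := by linear_combination 64 * hR
    rw [this]
    exact V.neg_mem _ (V.mul_mem _ _ h h)
  have hinv : (8 * S.R)⁻¹ ∈ V := (V.mem_or_inv_mem _).resolve_left h8R
  set κ : V := ⟨(8 * S.R)⁻¹, hinv⟩ with hκ
  have hκR : (κ : ℂ) * (8 * S.R) = 1 := by
    rw [hκ]
    exact inv_mul_cancel₀ (mul_ne_zero (by norm_num) hR0)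
  have hκm : κ ∈ maximalIdeal V := by
    rw [mem_maximalIdeal, mem_nonunits_iff]
    intro hu
    obtain ⟨y, hy⟩ := hu.exists_right_inv
    apply h8R
    have : (y : ℂ) = 8 * S.R := by
      have h1 := congrArg (fun x : V => (x : ℂ)) hy
      simp only [MulMemClass.coe_mul, OneMemClass.coe_one] at h1
      linear_combination (-(y : ℂ)) * hκR + (8 * S.R) * h1
    rw [← this]
    exact y.2
  have hκ0 : κ ≠ 0 := by
    intro h
    rw [h] at hκR
    simp at hκR
  have hϖ : S.ϖ = 4 * κ := by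
    apply Subtype.ext
    have h1 : ((4 * κ : V) : ℂ) = 4 * (κ : ℂ) := rfl
    rw [h1]
    have h2 := S.hϖR
    apply mul_right_cancel₀ (mul_ne_zero (two_ne_zero) hR0)
    linear_combination h2 - hκR
  obtain ⟨Z, hZ⟩ := exists_arr S hsupp hdef κ hϖ
  have h8 : (8 : V) ≠ 0 := by
    intro h
    have := congrArg (fun x : V => (x : ℂ)) h
    have h1 : ((8 : V) : ℂ) = 8 := rfl
    simp only [h1] at this
    norm_num at this
  obtain ⟨Y, hY, v, hv, hQ⟩ := Z.exists_sys h8 (by rwa [hZ])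
  obtain ⟨d, hd⟩ := Y.conclusion (by rw [hY, hZ]; exact hκm) hv hQ
  rw [hY, hZ] at hd
  refine arch (l := κ ^ 2) (Ideal.pow_mem_of_mem _ hκm 2 (by norm_num)) (x := -(64 * c)) ?_ ?_ d ?_
  · have h1 : IsAlgebraic ℤ ((64 : ℤ) : ℂ) := isAlgebraic_intCast 64
    have h2 := (h1.mul hc).neg
    push_cast at h2
    exact h2
  · push_cast
    linear_combination (-64 * (κ : ℂ) ^ 2) * hR + (8 * (κ : ℂ) * S.R + 1) * hκR
  · intro n
    rw [← pow_mul]
    exact hd _

end Pool.Agent.MPf2967f.Uni
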