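import Mathlib
import Pool.Agent.Lib.MP_f2967f_an.Uni.Final

set_option autoImplicit false

/-!
# Finiteness of the parameters of bounded degree
-/

namespace Pool.Agent.MPf2967f.Uni

open Filter Topology Polynomial

/-- Conjugate algebraic numbers are related by an endomorphism of the field of complex numbers. -/
lemma exists_ringHom_of_root {x β : ℂ} (hx : IsAlgebraic ℚ x)
    (hβ : aeval β (minpoly ℚ x) = 0) : ∃ σ : ℂ →+* ℂ, σ x = β := by
  have hβalg : IsAlgebraic ℚ β := ⟨minpoly ℚ x, minpoly.ne_zero hx.isIntegral, hβ⟩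
  let L := algebraicClosure ℚ ℂ
  have hxL : x ∈ L := mem_algebraicClosure_iff.mpr hx
  have hβL : β ∈ L := mem_algebraicClosure_iff.mpr hβalg
  have hcl : IsAlgClosure ℚ L := algebraicClosure.isAlgClosure ℚ ℂ
  have hN : Normal ℚ L := IsAlgClosure.normal ℚ L
  have hx' : IsAlgebraic ℚ (⟨x, hxL⟩ : L) := by
    exact (isAlgebraic_algebraMap_iff (A := ℂ) (FaithfulSMul.algebraMap_injective L ℂ)).mp hx
  have hmin : minpoly ℚ (⟨x, hxL⟩ : L) = minpoly ℚ x := by
    exact (minpoly.algebraMap_eq (FaithfulSMul.algebraMap_injective L ℂ) (⟨x, hxL⟩ : L)).symm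
  have hβ' : aeval (⟨β, hβL⟩ : L) (minpoly ℚ (⟨x, hxL⟩ : L)) = 0 := by
    rw [hmin]
    apply FaithfulSMul.algebraMap_injective L ℂ
    rw [← aeval_algebraMap_apply, map_zero]
    exact hβ
  obtain ⟨σ₀, hσ₀⟩ : ∃ σ₀ : L ≃ₐ[ℚ] L, σ₀ (⟨x, hxL⟩ : L) = ⟨β, hβL⟩ := by
    obtain ⟨σ₁, hσ₁⟩ := minpoly.exists_algEquiv_of_root hx' hβ'
    exact ⟨σ₁.symm, by rw [← hσ₁, AlgEquiv.symm_apply_apply]⟩
  obtain ⟨s, hs⟩ := exists_isTranscendenceBasis L ℂ
  have := IsAlgClosed.isAlgClosure_of_transcendence_basis _ hs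
  let e : Algebra.adjoin L (Set.range ((↑) : s → ℂ)) ≃+* Algebra.adjoin L (Set.range ((↑) : s → ℂ)) :=
    (hs.1.aevalEquiv.symm.toRingEquiv.trans (MvPolynomial.mapEquiv s σ₀.toRingEquiv)).trans
      hs.1.aevalEquiv.toRingEquiv
  have he : ∀ a : L, e (algebraMap L _ a) = algebraMap L _ (σ₀ a) := by
    intro a
    simp only [e]
    simp only [RingEquiv.coe_trans, Function.comp_apply]
    have h1 : hs.1.aevalEquiv.symm.toRingEquiv (algebraMap L _ a) = MvPolynomial.C a := by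
      exact hs.1.aevalEquiv.symm.commutes a
    rw [h1, MvPolynomial.mapEquiv_apply, MvPolynomial.map_C]
    exact hs.1.aevalEquiv.commutes (σ₀ a)
  refine ⟨(IsAlgClosure.equivOfEquiv ℂ ℂ e : ℂ ≃+* ℂ).toRingHom, ?_⟩
  have h1 := IsAlgClosure.equivOfEquiv_algebraMap ℂ ℂ e (algebraMap L _ (⟨x, hxL⟩ : L))
  rw [he, hσ₀] at h1
  exact h1

/-- Northcott's theorem in the form needed: algebraic integers of bounded degree with bounded
conjugates form a finite set. -/
lemma northcott (B : ℝ) (D : ℕ) : {x : ℂ | IsIntegral ℤ x ∧ (∀ σ : ℂ →+* ℂ, ‖σ x‖ ≤ B) ∧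
    (minpoly ℚ x).natDegree ≤ D}.Finite := by
  classical
  let C := Nat.ceil (max B 1 ^ D * D.choose (D / 2))
  have := bUnion_roots_finite (algebraMap ℤ ℂ) D (Set.finite_Icc (-C : ℤ) C)
  refine this.subset ?_
  rintro x ⟨hx, hB, hD⟩
  have hmin := minpoly.isIntegrallyClosed_eq_field_fractions' ℚ hx
  have hxQ : IsIntegral ℚ x := hx.tower_top
  have hdeg : (minpoly ℤ x).natDegree ≤ D := by
    rw [← (minpoly.monic hx).natDegree_map (algebraMap ℤ ℚ), ← hmin]
    exact hD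
  simp_rw [Set.mem_iUnion]
  refine ⟨_, ⟨hdeg, fun i => ?_⟩, mem_rootSet.2 ⟨minpoly.ne_zero hx, minpoly.aeval ℤ x⟩⟩
  rw [Set.mem_Icc, ← abs_le, ← @Int.cast_le ℝ]
  have hroots : ∀ z ∈ ((minpoly ℚ x).map (algebraMap ℚ ℂ)).roots, ‖z‖ ≤ B := by
    intro z hz
    have h1 := (mem_roots'.mp hz).2
    rw [IsRoot.def, eval_map_algebraMap] at h1
    obtain ⟨σ, hσ⟩ := exists_ringHom_of_root hxQ.isAlgebraic h1
    rw [← hσ]
    exact hB σ
  have h2 := coeff_bdd_of_roots_le (algebraMap ℚ ℂ) (minpoly.monic hxQ)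
    (IsAlgClosed.splits _) hD hroots i
  refine le_trans (le_of_eq ?_) (h2.trans (Nat.le_ceil _))
  rw [hmin, coeff_map, coeff_map]
  simp

section multiplier

open Pool.Agent.MPf2967f.Fin

variable {k : ℕ} [NeZero k] {c : ℂ} {z : ZMod k → ℂ} {N : ℕ → ℕ} {τ : ℂˣ} {α β : ZMod k → ℂ}

lemma tau_tendsto' (hz : ∀ j, z (j + 1) + z (j - 1) = z j ^ 2 + c) (hAI : AI c k z N)
    (hα0 : α ≠ 0) (hE : Eigen k z τ α β) :
    Tendsto (fun i => (τ : ℂ) ^ (k * N i)) atTop (𝓝 1) := by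
  obtain ⟨Q, hQ0, hQ1, hQ⟩ := exists_orbit c
    (Polynomial.C (z 0) + Polynomial.C (atS τ α 0) * Polynomial.X)
    (Polynomial.C (z 1) + Polynomial.C (atS τ α 1) * Polynomial.X)
  have z_nat : ∀ i : ℕ, z ((i + 2 : ℕ) : ZMod k) =
      z ((i + 1 : ℕ) : ZMod k) ^ 2 + c - z (i : ZMod k) := by
    intro i
    have h := hz ((i + 1 : ℕ) : ZMod k)
    have e1 : ((i + 1 : ℕ) : ZMod k) + 1 = ((i + 2 : ℕ) : ZMod k) := by push_cast; ring
    have e2 : ((i + 1 : ℕ) : ZMod k) - 1 = ((i : ℕ) : ZMod k) := by push_cast; ring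
    rw [e1, e2] at h
    linear_combination h
  have key : ∀ i, ((Q i).coeff 0 = z (i : ZMod k) ∧ (Q i).coeff 1 = atS τ α i) ∧
      ((Q (i + 1)).coeff 0 = z ((i + 1 : ℕ) : ZMod k) ∧
        (Q (i + 1)).coeff 1 = atS τ α (i + 1)) := by
    intro i
    induction i with
    | zero => simp [hQ0, hQ1]
    | succ i ih =>
      refine ⟨ih.2, ?_, ?_⟩
      · rw [hQ i, z_nat i, Polynomial.coeff_sub, Polynomial.coeff_add, pow_two,
          Polynomial.mul_coeff_zero, Polynomial.coeff_C_zero, ih.2.1, ih.1.1]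
        ring
      · rw [hQ i, atS_eqn hE i, Polynomial.coeff_sub, Polynomial.coeff_add, pow_two,
          Polynomial.mul_coeff_one, Polynomial.coeff_C, ih.2.1, ih.2.2, ih.1.2]
        simp
        ring
  have h1 := hAI Q (by simpa using (key 0).1.1) (by simpa using (key 0).2.1) hQ 1
  have hk0 : ∀ m : ℕ, ((k * m : ℕ) : ZMod k) = 0 := by intro m; simp
  by_cases h0 : α 0 = 0
  · have h10 : α 1 ≠ 0 := by
      intro h10
      apply hα0
      have h2 : ∀ n, atS τ α n = 0 ∧ atS τ α (n + 1) = 0 := by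
        intro n
        induction n with
        | zero =>
          constructor
          · simp [atS, h0]
          · simp [atS, h10]
        | succ n ih =>
          refine ⟨ih.2, ?_⟩
          rw [atS_eqn hE, ih.1, ih.2]
          ring
      funext j
      have h3 := (h2 j.val).1
      rw [atS, ZMod.natCast_zmod_val] at h3
      exact (mul_eq_zero.mp h3).resolve_left (pow_ne_zero _ τ.ne_zero)
    have h2 : ∀ i, (Q (k * N i + 1)).coeff 1 = (τ : ℂ) ^ (k * N i) * (τ * α 1) := by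
      intro i
      rw [(key _).2.2, atS, pow_succ]
      push_cast
      simp
      ring
    have h3 : (Q 1).coeff 1 = τ * α 1 := by
      have := (key 0).2.2
      rw [zero_add] at this
      rw [this, atS]; simp
    have h4 := h1.2
    simp only [h2, h3] at h4
    have h5 : (τ : ℂ) * α 1 ≠ 0 := mul_ne_zero τ.ne_zero h10
    have h6 := h4.div_const ((τ : ℂ) * α 1)
    rw [div_self h5] at h6
    refine h6.congr (fun i => ?_)
    field_simp
  · have h2 : ∀ i, (Q (k * N i)).coeff 1 = (τ : ℂ) ^ (k * N i) * α 0 := by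
      intro i
      rw [(key _).1.2, atS, hk0]
    have h3 : (Q 0).coeff 1 = α 0 := by
      rw [(key 0).1.2, atS]; simp
    have h4 := h1.1
    simp only [h2, h3] at h4
    have h6 := h4.div_const (α 0)
    rw [div_self h0] at h6
    refine h6.congr (fun i => ?_)
    field_simp

lemma norm_tau (hz : ∀ j, z (j + 1) + z (j - 1) = z j ^ 2 + c) (hN : Tendsto N atTop atTop)
    (hAI : AI c k z N) (hα0 : α ≠ 0) (hE : Eigen k z τ α β) : ‖(τ : ℂ)‖ = 1 := by
  have h1 := (tau_tendsto' hz hAI hα0 hE).norm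
  rw [norm_one] at h1
  simp only [norm_pow] at h1
  have h2 : ∀ᶠ i in atTop, 1 ≤ N i := hN.eventually (eventually_ge_atTop 1)
  have hk := NeZero.pos k
  apply le_antisymm
  · by_contra hcon
    push Not at hcon
    have h3 : ∀ᶠ i in atTop, ‖(τ : ℂ)‖ ≤ ‖(τ : ℂ)‖ ^ (k * N i) := by
      filter_upwards [h2] with i hi
      exact le_self_pow₀ hcon.le (Nat.mul_ne_zero hk.ne' (by omega))
    have := ge_of_tendsto h1 h3
    linarith
  · by_contra hcon
    push Not at hcon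
    have h3 : ∀ᶠ i in atTop, ‖(τ : ℂ)‖ ^ (k * N i) ≤ ‖(τ : ℂ)‖ := by
      filter_upwards [h2] with i hi
      exact pow_le_of_le_one (norm_nonneg _) hcon.le (Nat.mul_ne_zero hk.ne' (by omega))
    have := le_of_tendsto h1 h3
    linarith

/-- The parameter itself is not in the horseshoe region. -/
theorem norm_bound (hz : ∀ j, z (j + 1) + z (j - 1) = z j ^ 2 + c) (hN : Tendsto N atTop atTop)
    (hAI : AI c k z N) : ‖c‖ ≤ 5 + 2 * √5 := by
  obtain ⟨τ, α, β, hα0, hβ0, hE⟩ := Fin.exists_eigen k z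
  have hτ := norm_tau hz hN hAI hα0 hE
  obtain ⟨j, hj⟩ := Finite.exists_max (fun j => ‖α j‖)
  obtain ⟨l, hl⟩ := Finite.exists_max (fun j => ‖z j‖)
  have hαj : 0 < ‖α j‖ := by
    obtain ⟨i, hi⟩ := Function.ne_iff.mp hα0
    exact (norm_pos_iff.mpr hi).trans_le (hj i)
  have h1 : ‖z j‖ ≤ 1 := by
    have h2 := congrArg norm (hE.hα j)
    rw [norm_mul, norm_mul, Complex.norm_ofNat] at h2
    have h3 : ‖(τ : ℂ) * α (j + 1) + (τ : ℂ)⁻¹ * α (j - 1)‖ ≤ ‖α j‖ + ‖α j‖ := by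
      refine (norm_add_le _ _).trans ?_
      rw [norm_mul, norm_mul, norm_inv, hτ, inv_one, one_mul, one_mul]
      exact add_le_add (hj _) (hj _)
    rw [h2] at h3
    by_contra hcon
    push Not at hcon
    nlinarith
  have h4 : ‖c‖ ≤ 1 + 2 * ‖z l‖ := by
    have h5 : c = z (j + 1) + z (j - 1) - z j ^ 2 := by linear_combination -hz j
    have h6 : ‖c‖ ≤ ‖z (j + 1)‖ + ‖z (j - 1)‖ + ‖z j‖ ^ 2 := by
      rw [h5]
      refine (norm_sub_le _ _).trans ?_
      rw [norm_pow]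
      exact add_le_add_left (norm_add_le _ _) _
    have h7 := hl (j + 1)
    have h8 := hl (j - 1)
    nlinarith [norm_nonneg (z j)]
  have h5 : ‖z l‖ ^ 2 ≤ 2 * ‖z l‖ + ‖c‖ := by
    have h6 : z l ^ 2 = z (l + 1) + z (l - 1) - c := by linear_combination -hz l
    have h7 := congrArg norm h6
    rw [norm_pow] at h7
    rw [h7]
    refine (norm_sub_le _ _).trans ?_
    have := norm_add_le (z (l + 1)) (z (l - 1))
    have h9 := hl (l + 1)
    have h10 := hl (l - 1)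
    linarith
  have h6 : ‖z l‖ ≤ 2 + √5 := by
    by_contra hcon
    push Not at hcon
    have h7 : √5 ^ 2 = 5 := Real.sq_sqrt (by norm_num)
    nlinarith [Real.sqrt_nonneg 5]
  linarith

end multiplier

/-- **The arithmetic restriction**, uniform in the period. -/
theorem arith (c : ℂ) (p : ℂ × ℂ) (k : ℕ) (hk : 0 < k) (hp : (henon c)^[k] p = p)
    (U : Set (ℂ × ℂ)) (hU : IsOpen U) (hpU : p ∈ U) (φ : ℕ → ℕ) (hφ : StrictMono φ)
    (hlim : TendstoLocallyUniformlyOn (fun j => (henon c)^[φ j]) (id : ℂ × ℂ → ℂ × ℂ) atTop U) :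
    IsIntegral ℤ (64 * c) ∧ (∀ σ : ℂ →+* ℂ, ‖σ c‖ < 2500) ∧ ‖c‖ ≤ 5 + 2 * √5 := by
  have h1 := siegel_arith c p k hk hp U hU hpU φ hφ hlim
  have hc : IsAlgebraic ℤ c := by
    have h2 : (2 : ℂ) ^ (12 + 2 * padicValNat 2 k) ≠ 0 := pow_ne_zero _ two_ne_zero
    have h3 : IsAlgebraic ℤ (((2 : ℤ) ^ (12 + 2 * padicValNat 2 k) : ℤ) : ℂ) :=
      isAlgebraic_intCast _
    have h4 := h3.inv.mul h1.isAlgebraic
    push_cast at h4
    rwa [inv_mul_cancel_left₀ h2] at h4
  obtain ⟨d, hne, z, N, hdvd, hz, hN, hAI⟩ := exists_data c p k hk hp U hU hpU φ hφ hlim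
  exact ⟨isIntegral_of_forall_mem (fun V => mem_uniform hz hN hAI hc V),
    fun σ => Fin.conj_bound hz hN hAI σ, norm_bound hz hN hAI⟩

lemma finite_of_arith (P : ℂ → Prop) (hP : ∀ c, P c → IsIntegral ℤ (64 * c) ∧
    (∀ σ : ℂ →+* ℂ, ‖σ c‖ < 2500)) (D : ℕ) : {c : ℂ | P c ∧ (minpoly ℚ c).natDegree ≤ D}.Finite := by
  have h64 : (64 : ℂ) ≠ 0 := by norm_num
  refine Set.Finite.of_finite_image (f := fun c => 64 * c) ?_
    (fun a _ b _ hab => mul_left_cancel₀ h64 hab)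
  refine (northcott 160000 D).subset ?_
  rintro _ ⟨c, ⟨hc, hD⟩, rfl⟩
  obtain ⟨h1, h2⟩ := hP c hc
  refine ⟨h1, fun σ => ?_, ?_⟩
  · have : σ (64 * c) = 64 * σ c := by rw [map_mul, map_ofNat]
    rw [this, norm_mul, Complex.norm_ofNat]
    linarith [h2 σ]
  · have h3 : IsIntegral ℚ (64 * c) := h1.tower_top
    have h4 : IntermediateField.adjoin ℚ {64 * c} ≤ IntermediateField.adjoin ℚ {c} := by
      rw [IntermediateField.adjoin_simple_le_iff]
      have := IntermediateField.mem_adjoin_simple_self ℚ c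
      exact mul_mem (ofNat_mem _ 64) this
    have h5 : IntermediateField.adjoin ℚ {c} ≤ IntermediateField.adjoin ℚ {64 * c} := by
      rw [IntermediateField.adjoin_simple_le_iff]
      have := IntermediateField.mem_adjoin_simple_self ℚ (64 * c)
      have h7 := mul_mem (inv_mem (ofNat_mem (IntermediateField.adjoin ℚ {64 * c}) 64)) this
      rwa [inv_mul_cancel_left₀ h64] at h7
    have h6 : IsIntegral ℚ c := by
      have h7 : c = ((64⁻¹ : ℚ) : ℂ) * (64 * c) := by push_cast; field_simp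
      rw [h7]
      exact (isIntegral_algebraMap (R := ℚ) (A := ℂ) (x := 64⁻¹)).mul h3
    have h7 := IntermediateField.adjoin.finrank h3
    have h8 := IntermediateField.adjoin.finrank h6
    show (minpoly ℚ (64 * c)).natDegree ≤ D
    rw [← h7, le_antisymm h4 h5, h8]
    exact hD

lemma rat_of_arith (q : ℚ) (h1 : IsIntegral ℤ (64 * (q : ℂ))) (h2 : ‖(q : ℂ)‖ ≤ 5 + 2 * √5) :
    ∃ n : ℤ, |n| ≤ 606 ∧ q = n / 64 := by
  have h3 : IsIntegral ℤ (64 * q : ℚ) := by
    have h4 : (algebraMap ℚ ℂ) (64 * q : ℚ) = 64 * (q : ℂ) := by simp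
    rw [← h4] at h1
    exact (isIntegral_algebraMap_iff (algebraMap ℚ ℂ).injective).mp h1
  obtain ⟨n, hn⟩ := IsIntegrallyClosed.isIntegral_iff.mp h3
  have hn' : (n : ℚ) = 64 * q := by simpa using hn
  refine ⟨n, ?_, by rw [hn']; ring⟩
  have h5 : |(q : ℝ)| ≤ 5 + 2 * √5 := by
    have h6 : ‖(q : ℂ)‖ = |(q : ℝ)| := by
      have : (q : ℂ) = ((q : ℝ) : ℂ) := by push_cast; rfl
      rw [this, Complex.norm_real, Real.norm_eq_abs]
    rwa [h6] at h2
  have h7 : √5 < 2.2361 := by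
    rw [Real.sqrt_lt' (by norm_num)]
    norm_num
  have h8 : |(n : ℝ)| < 607 := by
    have h9 : (n : ℝ) = 64 * (q : ℝ) := by exact_mod_cast hn'
    rw [h9, abs_mul]
    norm_num
    linarith
  have h10 : |n| < 607 := by exact_mod_cast h8
  omega

end Pool.Agent.MPf2967f.Uni
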